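import Mathlib

set_option autoImplicit false

/-! Differences of a subgroup of finite index of the multiplicative group of a field. -/

namespace Pool.Agent.X258.HF

open Finset

/-- In an infinite field there are elements all of whose nonempty subset sums are nonzero. -/
theorem exists_sums {K : Type} [Field K] [Infinite K] (ι : Type) [Fintype ι] :
    ∃ l : ι → K, ∀ S : Finset ι, S.Nonempty → ∑ i ∈ S, l i ≠ 0 := by
  classical
  by_contra hcon
  push Not at hcon
  have h0 : (∏ S ∈ (Finset.univ : Finset (Finset ι)).filter (·.Nonempty),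
      ∑ i ∈ S, (MvPolynomial.X i : MvPolynomial ι K)) = 0 := by
    apply MvPolynomial.funext
    intro x
    rw [map_zero, map_prod]
    obtain ⟨S, hS, hx⟩ := hcon x
    apply Finset.prod_eq_zero (i := S) (by simp [hS])
    simpa using hx
  rw [Finset.prod_eq_zero_iff] at h0
  obtain ⟨S, hS, h1⟩ := h0
  rw [Finset.mem_filter] at hS
  obtain ⟨i, hi⟩ := hS.2
  have h2 := congrArg (MvPolynomial.eval (fun j => if j = i then (1 : K) else 0)) h1
  rw [map_sum, map_zero] at h2
  simp [hi] at h2

/-- A finite colouring of an infinite field by the cosets of `G`: every element is a difference of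
two elements of `G`. -/
theorem diff_infinite {K : Type} [Field K] [Infinite K] {G : Subgroup Kˣ} {N : ℕ} {f : K → Fin N}
    (hf : ∀ x y : K, f x = f y ↔ ∃ g ∈ G, y = x * (g : K)) (a : K) :
    ∃ g ∈ G, ∃ h ∈ G, a = (g : K) - (h : K) := by
  classical
  by_cases ha : a = 0
  · exact ⟨1, G.one_mem, 1, G.one_mem, by rw [ha]; simp⟩
  -- representatives
  have hrep : ∃ s : Fin N → K, ∀ x, f (s (f x)) = f x := by
    refine ⟨fun c => if h : ∃ x, f x = c then h.choose else 0, ?_⟩
    intro x
    have h : ∃ y, f y = f x := ⟨x, rfl⟩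
    simp only [h, dif_pos]
    exact h.choose_spec
  obtain ⟨s, hs⟩ := hrep
  let s' : Option (Fin N) → K := fun o => o.elim 0 s
  obtain ⟨ι, _, hι⟩ := Combinatorics.Line.exists_mono_in_high_dimension (Option (Fin N)) (Fin N)
  obtain ⟨l, hl⟩ := exists_sums (K := K) ι
  obtain ⟨L, c, hc⟩ := hι (fun w => f (∑ i, l i * s' (w i)))
  -- the line
  let act : Finset ι := Finset.univ.filter (fun i => L.idxFun i = none)
  have hact : act.Nonempty := by
    obtain ⟨i, hi⟩ := L.proper
    exact ⟨i, by simp [act, hi]⟩
  let lam : K := ∑ i ∈ act, l i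
  have hlam : lam ≠ 0 := hl act hact
  let b : K := ∑ i ∈ Finset.univ.filter (fun i => ¬ L.idxFun i = none), l i * s' (L none i)
  have hline : ∀ x, ∑ i, l i * s' (L x i) = lam * s' x + b := by
    intro x
    rw [← Finset.sum_filter_add_sum_filter_not Finset.univ (fun i => L.idxFun i = none)]
    congr 1
    · rw [Finset.sum_mul]
      apply Finset.sum_congr rfl
      intro i hi
      rw [Finset.mem_filter] at hi
      rw [L.apply_none x i hi.2]
    · apply Finset.sum_congr rfl
      intro i hi
      rw [Finset.mem_filter] at hi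
      obtain ⟨v, hv⟩ := Option.ne_none_iff_exists'.mp hi.2
      rw [L.apply_some hv, L.apply_some hv]
  have hcol : ∀ x, f (lam * s' x + b) = c := by
    intro x
    rw [← hline]
    exact hc x
  have hb1 : f b = c := by
    have := hcol none
    simpa [s'] using this
  have hb : b ≠ 0 := by
    intro hb
    have h1 := hcol (some (f 1))
    rw [← hb1, hb, add_zero, eq_comm, hf] at h1
    obtain ⟨g, _, h1⟩ := h1
    rw [zero_mul] at h1
    rcases mul_eq_zero.mp h1 with h1 | h1
    · exact hlam h1
    · have h2 := hs 1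
      have h3 : s (f 1) = 0 := h1
      rw [h3, hf] at h2
      obtain ⟨g, _, h2⟩ := h2
      rw [zero_mul] at h2
      exact one_ne_zero h2
  have h1 := hcol (some (f (a * b / lam)))
  rw [← hb1, eq_comm, hf] at h1
  obtain ⟨h, hh, h1⟩ := h1
  have h2 := hs (a * b / lam)
  rw [hf] at h2
  obtain ⟨g, hg, h2⟩ := h2
  have h3 : s' (some (f (a * b / lam))) = s (f (a * b / lam)) := rfl
  rw [h3] at h1
  refine ⟨g * h, G.mul_mem hg hh, g, hg, ?_⟩
  rw [div_eq_iff hlam] at h2
  -- `a b = s g lam`, `lam s + b = b h`
  have h4 : a * b = ((g * h : Kˣ) : K) * b - (g : K) * b := by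
    rw [h2, Units.val_mul]
    linear_combination (g : K) * h1
  have h5 : (a - (((g * h : Kˣ) : K) - (g : K))) * b = 0 := by linear_combination h4
  rcases mul_eq_zero.mp h5 with h5 | h5
  · linear_combination h5
  · exact absurd h5 hb

end Pool.Agent.X258.HF
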