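import Mathlib
import Pool.Agent.X258.HF.Fields

set_option autoImplicit false

/-! Differences of a large subgroup of the multiplicative group of a finite field. -/

namespace Pool.Agent.X258.HF

open Finset ComplexConjugate

section

variable {K : Type} [Field K] [Fintype K] (ψ : AddChar K ℂ) (G : Subgroup Kˣ)

/-- Gauss periods. -/
noncomputable def eta (c : K) : ℂ := by
  classical exact ∑ g : G, ψ (c * ((g : Kˣ) : K))

open Classical in
theorem eta_def (c : K) : eta ψ G c = ∑ g : G, ψ (c * ((g : Kˣ) : K)) := by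
  unfold eta
  rfl

open Classical in
theorem eta_conj (c : K) : conj (eta ψ G c) = eta ψ G (-c) := by
  rw [eta_def, eta_def, map_sum]
  apply Finset.sum_congr rfl
  intro g _
  rw [← AddChar.map_neg_eq_conj, neg_mul]

open Classical in
theorem eta_mul (c : K) (g : Kˣ) (hg : g ∈ G) : eta ψ G (c * (g : K)) = eta ψ G c := by
  rw [eta_def, eta_def]
  apply Fintype.sum_equiv (Equiv.mulLeft (⟨g, hg⟩ : G))
  intro h
  simp only [Equiv.coe_mulLeft, Subgroup.coe_mul, Units.val_mul, mul_assoc]

open Classical in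
theorem eta_zero : eta ψ G 0 = Nat.card G := by
  rw [eta_def]
  simp [Nat.card_eq_fintype_card]

open Classical in
theorem sum_normSq (hψ : ψ.IsPrimitive) :
    ∑ c : K, ‖eta ψ G c‖ ^ 2 = Fintype.card K * Nat.card G := by
  have h1 : ∀ c : K, ((‖eta ψ G c‖ ^ 2 : ℝ) : ℂ) =
      ∑ g : G, ∑ h : G, ψ (c * (((g : Kˣ) : K) - ((h : Kˣ) : K))) := by
    intro c
    rw [← Complex.normSq_eq_norm_sq, ← Complex.mul_conj, eta_conj, eta_def, eta_def,
      Finset.sum_mul_sum]
    apply Finset.sum_congr rfl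
    intro g _
    apply Finset.sum_congr rfl
    intro h _
    rw [← AddChar.map_add_eq_mul]
    congr 1
    ring
  have h2 : ((∑ c : K, ‖eta ψ G c‖ ^ 2 : ℝ) : ℂ) = Fintype.card K * Nat.card G := by
    rw [Complex.ofReal_sum]
    simp only [h1]
    rw [Finset.sum_comm]
    have h3 : ∀ g : G, ∑ c : K, ∑ h : G, ψ (c * (((g : Kˣ) : K) - ((h : Kˣ) : K))) =
        Fintype.card K := by
      intro g
      rw [Finset.sum_comm]
      simp only [AddChar.sum_mulShift _ hψ]
      have h4 : ∀ h : G, (((if ((g : Kˣ) : K) - ((h : Kˣ) : K) = 0 then Fintype.card K else 0 : ℕ))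
          : ℂ) = if h = g then (Fintype.card K : ℂ) else 0 := by
        intro h
        by_cases hgh : h = g
        · subst hgh; simp
        · have : ¬ ((g : Kˣ) : K) - ((h : Kˣ) : K) = 0 := by
            intro h5
            apply hgh
            rw [sub_eq_zero] at h5
            exact (Subtype.ext (Units.ext h5)).symm
          simp [hgh, this]
      simp only [h4]
      simp
    simp only [h3]
    simp [Nat.card_eq_fintype_card, mul_comm]
  exact_mod_cast h2

open Classical in
theorem norm_eta_le (hψ : ψ.IsPrimitive) (c : K) (hc : c ≠ 0) :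
    ‖eta ψ G c‖ ^ 2 ≤ Fintype.card K := by
  have h1 := sum_normSq ψ G hψ
  have hpos : (0 : ℝ) < Nat.card G := by
    exact_mod_cast Nat.card_pos
  have h2 : (Nat.card G : ℝ) * ‖eta ψ G c‖ ^ 2 ≤ ∑ c : K, ‖eta ψ G c‖ ^ 2 := by
    have h3 : ∑ g : G, ‖eta ψ G (c * ((g : Kˣ) : K))‖ ^ 2 = Nat.card G * ‖eta ψ G c‖ ^ 2 := by
      have : ∀ g : G, ‖eta ψ G (c * ((g : Kˣ) : K))‖ ^ 2 = ‖eta ψ G c‖ ^ 2 := by
        intro g
        rw [eta_mul ψ G c g g.2]
      simp only [this]
      simp [Nat.card_eq_fintype_card]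
    rw [← h3]
    have hinj : Function.Injective (fun g : G => c * ((g : Kˣ) : K)) := by
      intro g h hgh
      exact Subtype.ext (Units.ext (mul_left_cancel₀ hc hgh))
    rw [← Finset.sum_image (f := fun x => ‖eta ψ G x‖ ^ 2) (s := Finset.univ)
      (g := fun g : G => c * ((g : Kˣ) : K)) (fun a _ b _ h => hinj h)]
    apply Finset.sum_le_sum_of_subset_of_nonneg (Finset.subset_univ _)
    intro i _ _
    positivity
  rw [h1] at h2
  nlinarith

/-- Every nonzero element of a finite field is a difference of two elements of a large subgroup. -/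
theorem diff_finite (hG : (Fintype.card K) ^ 3 < (Nat.card G) ^ 4) (a : K) :
    ∃ g ∈ G, ∃ h ∈ G, a = (g : K) - (h : K) := by
  classical
  by_cases ha : a = 0
  · exact ⟨1, G.one_mem, 1, G.one_mem, by rw [ha]; simp⟩
  by_contra hcon
  push Not at hcon
  let ψ := AddChar.FiniteField.primitiveChar_to_Complex K
  have hψ : ψ.IsPrimitive := AddChar.FiniteField.primitiveChar_to_Complex_isPrimitive K
  have hne : ∀ g h k : G, ((g : Kˣ) : K) - ((h : Kˣ) : K) + (- a) * ((k : Kˣ) : K) ≠ 0 := by
    intro g h k h0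
    apply hcon ((g : Kˣ) * (k : Kˣ)⁻¹) (G.mul_mem g.2 (G.inv_mem k.2)) ((h : Kˣ) * (k : Kˣ)⁻¹)
      (G.mul_mem h.2 (G.inv_mem k.2))
    have hk : ((k : Kˣ) : K) ≠ 0 := Units.ne_zero _
    rw [Units.val_mul, Units.val_mul, Units.val_inv_eq_inv_val]
    field_simp
    linear_combination -h0
  have hsum : ∑ c : K, eta ψ G c * eta ψ G (-c) * eta ψ G (c * (-a)) = 0 := by
    have h1 : ∀ c : K, eta ψ G c * eta ψ G (-c) * eta ψ G (c * (-a)) =
        ∑ g : G, ∑ h : G, ∑ k : G,
          ψ (c * (((g : Kˣ) : K) - ((h : Kˣ) : K) + (- a) * ((k : Kˣ) : K))) := by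
      intro c
      rw [eta_def, eta_def, eta_def, Finset.sum_mul_sum, Finset.sum_mul]
      apply Finset.sum_congr rfl
      intro g _
      rw [Finset.sum_mul]
      apply Finset.sum_congr rfl
      intro h _
      rw [Finset.mul_sum]
      apply Finset.sum_congr rfl
      intro k _
      rw [← AddChar.map_add_eq_mul, ← AddChar.map_add_eq_mul]
      congr 1
      ring
    simp only [h1]
    rw [Finset.sum_comm]
    apply Finset.sum_eq_zero
    intro g _
    rw [Finset.sum_comm]
    apply Finset.sum_eq_zero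
    intro h _
    rw [Finset.sum_comm]
    apply Finset.sum_eq_zero
    intro k _
    rw [AddChar.sum_mulShift _ hψ, if_neg (hne g h k)]
    simp
  rw [← Finset.add_sum_erase _ _ (Finset.mem_univ (0 : K))] at hsum
  simp only [neg_zero, zero_mul, eta_zero] at hsum
  have hnorm : (Nat.card G : ℝ) ^ 3 ≤ Real.sqrt (Fintype.card K) *
      (Fintype.card K * Nat.card G) := by
    have h1 : ((Nat.card G : ℂ)) * Nat.card G * Nat.card G =
        - ∑ c ∈ Finset.univ.erase (0 : K), eta ψ G c * eta ψ G (-c) * eta ψ G (c * (-a)) := by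
      linear_combination hsum
    have h2 := congrArg norm h1
    rw [norm_neg] at h2
    have h3 : ‖((Nat.card G : ℂ)) * Nat.card G * Nat.card G‖ = (Nat.card G : ℝ) ^ 3 := by
      rw [norm_mul, norm_mul, Complex.norm_natCast]; ring
    rw [h3] at h2
    rw [h2, ← sum_normSq ψ G hψ, Finset.mul_sum]
    calc _ ≤ ∑ c ∈ Finset.univ.erase (0 : K),
          ‖eta ψ G c * eta ψ G (-c) * eta ψ G (c * (-a))‖ := norm_sum_le _ _
      _ ≤ ∑ c ∈ Finset.univ.erase (0 : K), Real.sqrt (Fintype.card K) * ‖eta ψ G c‖ ^ 2 := by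
        apply Finset.sum_le_sum
        intro c hc
        have hc0 := (Finset.mem_erase.mp hc).1
        rw [norm_mul, norm_mul, ← eta_conj, RCLike.norm_conj]
        have h4 : ‖eta ψ G (c * (-a))‖ ≤ Real.sqrt (Fintype.card K) := by
          apply Real.le_sqrt_of_sq_le
          exact norm_eta_le ψ G hψ _ (mul_ne_zero hc0 (neg_ne_zero.mpr ha))
        nlinarith [norm_nonneg (eta ψ G c), norm_nonneg (eta ψ G (c * (-a))),
          mul_nonneg (norm_nonneg (eta ψ G c)) (norm_nonneg (eta ψ G c))]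
      _ ≤ _ := by
        apply Finset.sum_le_sum_of_subset_of_nonneg (Finset.erase_subset _ _)
        intro i _ _
        positivity
  have hpos : (0 : ℝ) < Nat.card G := by exact_mod_cast Nat.card_pos
  have h5 : (Nat.card G : ℝ) ^ 2 ≤ Real.sqrt (Fintype.card K) * Fintype.card K := by
    have : (Nat.card G : ℝ) * (Nat.card G : ℝ) ^ 2 ≤
        (Nat.card G : ℝ) * (Real.sqrt (Fintype.card K) * Fintype.card K) := by
      nlinarith [hnorm]
    exact le_of_mul_le_mul_left this hpos
  have h6 : (Nat.card G : ℝ) ^ 4 ≤ (Fintype.card K : ℝ) ^ 3 := by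
    have hq : (0 : ℝ) ≤ Fintype.card K := by positivity
    have h7 : ((Nat.card G : ℝ) ^ 2) ^ 2 ≤ (Real.sqrt (Fintype.card K) * Fintype.card K) ^ 2 :=
      pow_le_pow_left₀ (by positivity) h5 2
    rw [mul_pow, Real.sq_sqrt hq] at h7
    calc (Nat.card G : ℝ) ^ 4 = ((Nat.card G : ℝ) ^ 2) ^ 2 := by ring
      _ ≤ _ := h7
      _ = _ := by ring
  have h8 : (Nat.card G) ^ 4 ≤ (Fintype.card K) ^ 3 := by exact_mod_cast h6
  omega

end

end Pool.Agent.X258.HF
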