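import Mathlib

set_option autoImplicit false

/-! Counting subsets of a finite set. -/

namespace Pool.Agent.X258.HF

open Finset

section

variable {Ω ι : Type} [Fintype Ω] [DecidableEq Ω] [DecidableEq ι]

theorem count_avoid (A : ι → Finset Ω) (hA : ∀ i, (A i).card ≤ 2) (I : Finset ι)
    (hI : ∀ i ∈ I, ∀ j ∈ I, i ≠ j → Disjoint (A i) (A j)) :
    4 ^ I.card * (univ.filter (fun S : Finset Ω => ∀ i ∈ I, ¬ A i ⊆ S)).card ≤
      3 ^ I.card * 2 ^ (Fintype.card Ω) := by
  induction I using Finset.induction_on with
  | empty => simp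
  | insert i I hi ih =>
    have ih' := ih (fun a ha b hb hab => hI a (mem_insert_of_mem ha) b (mem_insert_of_mem hb) hab)
    set N := univ.filter (fun S : Finset Ω => ∀ i ∈ I, ¬ A i ⊆ S) with hN
    set N1 := univ.filter (fun S : Finset Ω => ∀ j ∈ insert i I, ¬ A j ⊆ S) with hN1
    set N2 := N.filter (fun S => A i ⊆ S) with hN2
    have h1 : N1 = N \ N2 := by
      ext S
      simp only [hN1, hN, hN2, mem_filter, mem_univ, true_and, mem_insert, forall_eq_or_imp,
        mem_sdiff, not_and]
      tauto
    have h2 : N2 ⊆ N := filter_subset _ _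
    have h3 : N1.card = N.card - N2.card := by rw [h1, card_sdiff_of_subset h2]
    have h4 : N.card ≤ 4 * N2.card := by
      have h5 : N.card ≤ (N2 ×ˢ (A i).powerset).card := by
        apply Finset.card_le_card_of_injOn (fun S => (S ∪ A i, S ∩ A i))
        · intro S hS
          simp only [coe_product, Set.mem_prod, mem_coe, mem_powerset, hN2, mem_filter,
            subset_union_right, and_true, inter_subset_right]
          simp only [hN, mem_filter, mem_univ, true_and, mem_coe] at hS ⊢
          intro j hj hsub
          apply hS j hj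
          have hdis : Disjoint (A j) (A i) := by
            apply hI j (mem_insert_of_mem hj) i (mem_insert_self _ _)
            rintro rfl; exact hi hj
          intro x hx
          rcases mem_union.mp (hsub hx) with h | h
          · exact h
          · exact absurd h (disjoint_left.mp hdis hx)
        · intro S _ T _ hST
          simp only [Prod.mk.injEq] at hST
          ext x
          have e1 := Finset.ext_iff.mp hST.1 x
          have e2 := Finset.ext_iff.mp hST.2 x
          simp only [mem_union, mem_inter] at e1 e2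
          tauto
      rw [card_product, card_powerset] at h5
      have h6 : 2 ^ (A i).card ≤ 4 := by
        calc 2 ^ (A i).card ≤ 2 ^ 2 := Nat.pow_le_pow_right (by norm_num) (hA i)
          _ = 4 := by norm_num
      calc N.card ≤ N2.card * 2 ^ (A i).card := h5
        _ ≤ N2.card * 4 := Nat.mul_le_mul_left _ h6
        _ = 4 * N2.card := by ring
    have h7 := card_le_card h2
    have h8 : 4 * N1.card ≤ 3 * N.card := by omega
    rw [card_insert_of_notMem hi, pow_succ, pow_succ]
    calc 4 ^ I.card * 4 * N1.card = 4 ^ I.card * (4 * N1.card) := by ring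
      _ ≤ 4 ^ I.card * (3 * N.card) := Nat.mul_le_mul_left _ h8
      _ = 3 * (4 ^ I.card * N.card) := by ring
      _ ≤ 3 * (3 ^ I.card * 2 ^ (Fintype.card Ω)) := Nat.mul_le_mul_left _ ih'
      _ = _ := by ring

theorem count_superset (F : Finset Ω) :
    (univ.filter (fun S : Finset Ω => F ⊆ S)).card * 2 ^ F.card ≤ 2 ^ (Fintype.card Ω) := by
  rw [← card_powerset, ← card_product, ← Fintype.card_finset, ← card_univ]
  apply Finset.card_le_card_of_injOn (fun p => (p.1 \ F) ∪ p.2)
  · intro p _; simp
  · rintro ⟨S, U⟩ hS ⟨T, V⟩ hT h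
    simp only [coe_product, Set.mem_prod, mem_coe, mem_filter, mem_univ, true_and,
      mem_powerset] at hS hT
    simp only at h
    have key : ∀ x, (x ∈ S ↔ x ∈ T) ∧ (x ∈ U ↔ x ∈ V) := by
      intro x
      have e := Finset.ext_iff.mp h x
      simp only [mem_union, mem_sdiff] at e
      have a1 := @hS.1 x
      have a2 := @hS.2 x
      have a3 := @hT.1 x
      have a4 := @hT.2 x
      tauto
    rw [Prod.mk.injEq]
    exact ⟨Finset.ext fun x => (key x).1, Finset.ext fun x => (key x).2⟩

/-- A maximal family of pairwise disjoint sets `A i` is large, if every `A i` meets few others. -/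
theorem exists_disjoint_family (A : ι → Finset Ω) (J : Finset ι) (d : ℕ)
    (hne : ∀ i, (A i).Nonempty)
    (hd : ∀ i ∈ J, (J.filter (fun j => ¬ Disjoint (A i) (A j))).card ≤ d) :
    ∃ I ⊆ J, (∀ i ∈ I, ∀ j ∈ I, i ≠ j → Disjoint (A i) (A j)) ∧ J.card ≤ d * I.card := by
  -- a maximal family
  let fam := J.powerset.filter (fun I => ∀ i ∈ I, ∀ j ∈ I, i ≠ j → Disjoint (A i) (A j))
  have hfam : fam.Nonempty := ⟨∅, by simp [fam]⟩
  obtain ⟨I, hI, hmax⟩ := Finset.exists_max_image fam card hfam
  rw [mem_filter, mem_powerset] at hI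
  refine ⟨I, hI.1, hI.2, ?_⟩
  have hcov : J ⊆ I.biUnion (fun i => J.filter (fun j => ¬ Disjoint (A i) (A j))) := by
    intro j hj
    rw [mem_biUnion]
    by_contra hcon
    push Not at hcon
    have hdis : ∀ i ∈ I, Disjoint (A i) (A j) := by
      intro i hi
      by_contra h
      exact hcon i hi (mem_filter.mpr ⟨hj, h⟩)
    have hjI : j ∉ I := by
      intro hjI
      have := hdis j hjI
      rw [disjoint_self] at this
      exact (hne j).ne_empty this
    have h1 : insert j I ∈ fam := by
      rw [mem_filter, mem_powerset]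
      refine ⟨insert_subset hj hI.1, ?_⟩
      intro a ha b hb hab
      rcases mem_insert.mp ha with ha' | ha'
      · rcases mem_insert.mp hb with hb' | hb'
        · exact absurd (ha'.trans hb'.symm) hab
        · rw [ha']; exact (hdis b hb').symm
      · rcases mem_insert.mp hb with hb' | hb'
        · rw [hb']; exact hdis a ha'
        · exact hI.2 a ha' b hb' hab
    have h2 := hmax _ h1
    rw [card_insert_of_notMem hjI] at h2
    omega
  calc J.card ≤ (I.biUnion (fun i => J.filter (fun j => ¬ Disjoint (A i) (A j)))).card :=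
        card_le_card hcov
    _ ≤ ∑ i ∈ I, (J.filter (fun j => ¬ Disjoint (A i) (A j))).card := card_biUnion_le
    _ ≤ ∑ _i ∈ I, d := sum_le_sum (fun i hi => hd i (hI.1 hi))
    _ = d * I.card := by rw [sum_const, smul_eq_mul, mul_comm]

end

end Pool.Agent.X258.HF
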