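import Mathlib
import Pool.Agent.X258.HF.Count

set_option autoImplicit false

/-! Hyperfields with a given multiplicative group and sets of orbits of triples. -/

namespace Pool.Agent.X258.HF

open Finset

/-- The axioms of a hyperfield, with zero `z`, multiplication `m` and hyperaddition `s`. -/
def HypAx {H : Type} (z : H) (m : H → H → H) (s : H → H → Set H) : Prop :=
  (∃ u : H, u ≠ z ∧ ∀ a, m u a = a) ∧
  (∀ a b, m a b = m b a) ∧
  (∀ a b c, m (m a b) c = m a (m b c)) ∧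
  (∀ a, m z a = z) ∧
  (∀ a b, a ≠ z → b ≠ z → m a b ≠ z) ∧
  (∀ a, a ≠ z → ∃ b, ∀ c, m (m a b) c = c) ∧
  (∀ a b, (s a b).Nonempty) ∧
  (∀ a b, s a b = s b a) ∧
  (∀ a b c, (⋃ x ∈ s a b, s x c) = ⋃ x ∈ s b c, s a x) ∧
  (∀ a, s z a = {a}) ∧
  (∀ a, ∃! b, z ∈ s a b) ∧
  (∀ a b c d, a ∈ s b c → z ∈ s b d → c ∈ s a d) ∧
  (∀ a b c, (fun x => m a x) '' s b c = s (m a b) (m a c))

set_option linter.unusedSectionVars false

section

variable {H : Type} [CommGroupWithZero H]

theorem zero_or_unit (a : H) : a = 0 ∨ ∃ u : Hˣ, a = u := by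
  by_cases h : a = 0
  · exact Or.inl h
  · exact Or.inr ⟨Units.mk0 a h, rfl⟩

/-- Triples up to scaling and permutation. -/
def tset (H : Type) [CommGroupWithZero H] : Setoid (Fin 3 → Hˣ) where
  r s t := ∃ (g : Hˣ) (π : Equiv.Perm (Fin 3)), ∀ i, t i = g * s (π i)
  iseqv := by
    refine ⟨fun s => ⟨1, 1, fun i => by simp⟩, ?_, ?_⟩
    · rintro s t ⟨g, π, h⟩
      refine ⟨g⁻¹, π⁻¹, fun i => ?_⟩
      rw [h]; simp
    · rintro s t u ⟨g, π, h⟩ ⟨g', π', h'⟩
      refine ⟨g' * g, π * π', fun i => ?_⟩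
      rw [h', h, Equiv.Perm.mul_apply, mul_assoc]

/-- Orbits of triples. -/
abbrev Om (H : Type) [CommGroupWithZero H] : Type := Quotient (tset H)

/-- The orbit of a triple. -/
def mk (a b c : Hˣ) : Om H := Quotient.mk (tset H) ![a, b, c]

theorem mk_eq_iff {a b c a' b' c' : Hˣ} : mk a b c = mk a' b' c' ↔
    ∃ (g : Hˣ) (π : Equiv.Perm (Fin 3)), ∀ i, ![a', b', c'] i = g * ![a, b, c] (π i) :=
  Quotient.eq (r := tset H)

theorem mk_swap (a b c : Hˣ) : mk a b c = mk b a c := by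
  rw [mk_eq_iff]
  refine ⟨1, Equiv.swap 0 1, fun i => ?_⟩
  fin_cases i <;> simp [Equiv.swap_apply_def]

theorem mk_rot (a b c : Hˣ) : mk a b c = mk b c a := by
  rw [mk_eq_iff]
  refine ⟨1, finRotate 3, fun i => ?_⟩
  fin_cases i <;> simp

theorem mk_scale (g a b c : Hˣ) : mk (g * a) (g * b) (g * c) = mk a b c := by
  rw [eq_comm, mk_eq_iff]
  refine ⟨g, 1, fun i => ?_⟩
  fin_cases i <;> simp

theorem exists_mk (ω : Om H) : ∃ a b c, ω = mk a b c := by
  induction ω using Quotient.ind with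
  | _ t =>
    refine ⟨t 0, t 1, t 2, ?_⟩
    unfold mk
    congr 1
    funext i
    fin_cases i <;> rfl

/-- The six permutations. -/
theorem perm3 (π : Equiv.Perm (Fin 3)) :
    (π 0 = 0 ∧ π 1 = 1 ∧ π 2 = 2) ∨ (π 0 = 0 ∧ π 1 = 2 ∧ π 2 = 1) ∨
    (π 0 = 1 ∧ π 1 = 0 ∧ π 2 = 2) ∨ (π 0 = 1 ∧ π 1 = 2 ∧ π 2 = 0) ∨
    (π 0 = 2 ∧ π 1 = 0 ∧ π 2 = 1) ∨ (π 0 = 2 ∧ π 1 = 1 ∧ π 2 = 0) := by
  revert π
  decide

/-- A predicate on triples which is symmetric and invariant under scaling only depends on the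
orbit. -/
theorem pred_of_mk_eq (T : Hˣ → Hˣ → Hˣ → Prop) (h1 : ∀ x y z, T x y z → T y x z)
    (h2 : ∀ x y z, T x y z → T z x y) (h3 : ∀ g x y z, T x y z → T (g * x) (g * y) (g * z))
    {a b c a' b' c' : Hˣ} (h : mk a b c = mk a' b' c') (hT : T a b c) : T a' b' c' := by
  rw [mk_eq_iff] at h
  obtain ⟨g, π, h⟩ := h
  have e0 : a' = g * ![a, b, c] (π 0) := h 0
  have e1 : b' = g * ![a, b, c] (π 1) := h 1
  have e2 : c' = g * ![a, b, c] (π 2) := h 2
  rw [e0, e1, e2]
  rcases perm3 π with ⟨p0, p1, p2⟩ | ⟨p0, p1, p2⟩ | ⟨p0, p1, p2⟩ | ⟨p0, p1, p2⟩ |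
    ⟨p0, p1, p2⟩ | ⟨p0, p1, p2⟩ <;> rw [p0, p1, p2] <;> apply h3
  · exact hT
  · exact h1 _ _ _ (h2 _ _ _ hT)
  · exact h1 _ _ _ hT
  · exact h2 _ _ _ (h2 _ _ _ hT)
  · exact h2 _ _ _ hT
  · exact h2 _ _ _ (h1 _ _ _ hT)

variable [Fintype H]

noncomputable instance instFintypeUnits258 : Fintype Hˣ := Fintype.ofFinite _

noncomputable instance : Fintype (Om H) := Fintype.ofFinite _

noncomputable instance : DecidableEq (Om H) := Classical.decEq _

open Classical in
theorem fibre_le (a b : Hˣ) (ω : Om H) :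
    (univ.filter (fun x : Hˣ => mk a b x = ω)).card ≤ 6 := by
  obtain ⟨a', b', c', rfl⟩ := exists_mk ω
  have h1 : univ.filter (fun x : Hˣ => mk a b x = mk a' b' c') ⊆
      (univ : Finset (Equiv.Perm (Fin 3))).image
        (fun π => a * (![a', b', c'] (π 0))⁻¹ * ![a', b', c'] (π 2)) := by
    intro x hx
    rw [mem_filter] at hx
    have h := hx.2.symm
    rw [mk_eq_iff] at h
    obtain ⟨g, π, h⟩ := h
    rw [mem_image]
    refine ⟨π, mem_univ _, ?_⟩
    have e0 : a = g * ![a', b', c'] (π 0) := h 0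
    have e2 : x = g * ![a', b', c'] (π 2) := h 2
    have e3 : a * (![a', b', c'] (π 0))⁻¹ = g := by rw [e0]; group
    rw [e3, e2]
  calc _ ≤ _ := card_le_card h1
    _ ≤ (univ : Finset (Equiv.Perm (Fin 3))).card := card_image_le
    _ = 6 := by rw [card_univ, Fintype.card_perm]; rfl

/-- The orbits are small: `|Hˣ|² ≤ 6 |Ω|`. -/
theorem card_Om : (Fintype.card Hˣ) ^ 2 ≤ 6 * Fintype.card (Om H) := by
  classical
  have h : (univ : Finset (Hˣ × Hˣ)).card ≤ 6 * (univ : Finset (Om H)).card := by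
    apply card_le_mul_card_image_of_maps_to (f := fun p : Hˣ × Hˣ => mk 1 p.1 p.2)
      (fun _ _ => mem_univ _)
    intro ω _
    obtain ⟨a', b', c', rfl⟩ := exists_mk ω
    have h1 : (univ.filter (fun p : Hˣ × Hˣ => mk 1 p.1 p.2 = mk a' b' c')) ⊆
        (univ : Finset (Equiv.Perm (Fin 3))).image
          (fun π => ((![a', b', c'] (π 0))⁻¹ * ![a', b', c'] (π 1),
            (![a', b', c'] (π 0))⁻¹ * ![a', b', c'] (π 2))) := by
      rintro ⟨x, y⟩ hx
      rw [mem_filter] at hx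
      have h := hx.2.symm
      rw [mk_eq_iff] at h
      obtain ⟨g, π, h⟩ := h
      rw [mem_image]
      refine ⟨π, mem_univ _, ?_⟩
      have e0 : 1 = g * ![a', b', c'] (π 0) := h 0
      have e1 : x = g * ![a', b', c'] (π 1) := h 1
      have e2 : y = g * ![a', b', c'] (π 2) := h 2
      have e3 : (![a', b', c'] (π 0))⁻¹ = g := by
        rw [inv_eq_iff_mul_eq_one, mul_comm, ← e0]
      rw [e3, e1, e2]
    calc _ ≤ _ := card_le_card h1
      _ ≤ (univ : Finset (Equiv.Perm (Fin 3))).card := card_image_le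
      _ = 6 := by rw [card_univ, Fintype.card_perm]; rfl
  rw [card_univ, card_univ, Fintype.card_prod] at h
  rw [pow_two]; exact h

/-- The relation given by a set of orbits. -/
def RR (S : Finset (Om H)) (a b c : H) : Prop :=
  ∃ x y z : Hˣ, (x : H) = a ∧ (y : H) = b ∧ (z : H) = c ∧ mk x y z ∈ S

/-- The hyperaddition given by a set of orbits. -/
def hadd (ε : Hˣ) (S : Finset (Om H)) (a b : H) : Set H :=
  {z | (a = 0 ∧ z = b) ∨ (b = 0 ∧ z = a) ∨ (a ≠ 0 ∧ b ≠ 0 ∧ z = 0 ∧ b = ε * a) ∨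
    RR S a b (ε * z)}

theorem RR_units {S : Finset (Om H)} {a b c : Hˣ} :
    RR S (a : H) (b : H) (c : H) ↔ mk a b c ∈ S := by
  constructor
  · rintro ⟨x, y, z, hx, hy, hz, h⟩
    rw [Units.val_inj] at hx hy hz
    rwa [← hx, ← hy, ← hz]
  · intro h
    exact ⟨a, b, c, rfl, rfl, rfl, h⟩

theorem mem_hadd_units {ε : Hˣ} {S : Finset (Om H)} {a b z : Hˣ} :
    (z : H) ∈ hadd ε S (a : H) (b : H) ↔ mk a b (ε * z) ∈ S := by
  rw [← RR_units]
  simp [hadd]

theorem zero_mem_hadd_units {ε : Hˣ} {S : Finset (Om H)} {a b : Hˣ} :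
    (0 : H) ∈ hadd ε S (a : H) (b : H) ↔ b = ε * a := by
  constructor
  · rintro (⟨h, _⟩ | ⟨h, _⟩ | ⟨_, _, _, h⟩ | ⟨x, y, z, _, _, h, _⟩)
    · exact absurd h (Units.ne_zero _)
    · exact absurd h (Units.ne_zero _)
    · exact Units.ext (by rw [h]; simp)
    · rw [mul_zero] at h
      exact absurd h (Units.ne_zero _)
  · intro h
    exact Or.inr (Or.inr (Or.inl ⟨Units.ne_zero _, Units.ne_zero _, rfl, by rw [h]; simp⟩))

theorem hadd_zero_left {ε : Hˣ} {S : Finset (Om H)} (b : H) : hadd ε S 0 b = {b} := by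
  ext z
  constructor
  · rintro (⟨_, h⟩ | ⟨h, h'⟩ | ⟨h, _⟩ | ⟨x, _, _, h, _⟩)
    · exact h
    · rw [h', h]; rfl
    · exact absurd rfl h
    · exact absurd h (Units.ne_zero _)
  · rintro rfl
    exact Or.inl ⟨rfl, rfl⟩

theorem hadd_zero_right {ε : Hˣ} {S : Finset (Om H)} (a : H) : hadd ε S a 0 = {a} := by
  ext z
  constructor
  · rintro (⟨h, h'⟩ | ⟨_, h⟩ | ⟨_, h, _⟩ | ⟨_, x, _, _, h, _⟩)
    · rw [h', h]; rfl
    · exact h
    · exact absurd rfl h
    · exact absurd h (Units.ne_zero _)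
  · rintro rfl
    exact Or.inr (Or.inl ⟨rfl, rfl⟩)

/-- Rich sets of orbits. -/
def Rich (ε : Hˣ) (S : Finset (Om H)) : Prop :=
  ∀ a b c d : Hˣ, ∃ x : Hˣ, mk a b (ε * x) ∈ S ∧ mk x c (ε * d) ∈ S

theorem hadd_comm {ε : Hˣ} (hε : ε * ε = 1) {S : Finset (Om H)} (a b : H) :
    hadd ε S a b = hadd ε S b a := by
  rcases zero_or_unit a with rfl | ⟨a, rfl⟩
  · rw [hadd_zero_left, hadd_zero_right]
  rcases zero_or_unit b with rfl | ⟨b, rfl⟩
  · rw [hadd_zero_left, hadd_zero_right]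
  ext z
  rcases zero_or_unit z with rfl | ⟨z, rfl⟩
  · rw [zero_mem_hadd_units, zero_mem_hadd_units]
    constructor
    · rintro rfl; rw [← mul_assoc, hε, one_mul]
    · rintro rfl; rw [← mul_assoc, hε, one_mul]
  · rw [mem_hadd_units, mem_hadd_units, mk_swap]

theorem assoc_aux {ε : Hˣ} (hε : ε * ε = 1) {S : Finset (Om H)} (hS : Rich ε S) (a b c : Hˣ) :
    (⋃ x ∈ hadd ε S (a : H) (b : H), hadd ε S x (c : H)) = {z : H | z = 0 → mk a b c ∈ S} := by
  ext z
  simp only [Set.mem_iUnion, exists_prop, Set.mem_ofPred_eq]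
  rcases zero_or_unit z with rfl | ⟨z, rfl⟩
  · simp only [true_implies]
    constructor
    · rintro ⟨x, hx, h⟩
      rcases zero_or_unit x with rfl | ⟨x, rfl⟩
      · rw [hadd_zero_left] at h
        exact absurd h.symm (Units.ne_zero _)
      · rw [zero_mem_hadd_units] at h
        rw [mem_hadd_units] at hx
        rw [h]; exact hx
    · intro h
      refine ⟨((ε * c : Hˣ) : H), ?_, ?_⟩
      · rw [mem_hadd_units, ← mul_assoc, hε, one_mul]; exact h
      · rw [zero_mem_hadd_units, ← mul_assoc, hε, one_mul]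
  · obtain ⟨x, h1, h2⟩ := hS a b c z
    constructor
    · intro _ h; exact absurd h (Units.ne_zero _)
    · intro _
      exact ⟨x, mem_hadd_units.mpr h1, mem_hadd_units.mpr h2⟩

theorem hyp_of_rich {ε : Hˣ} (hε : ε * ε = 1) {S : Finset (Om H)} (hS : Rich ε S) :
    HypAx (0 : H) (fun a b => a * b) (hadd ε S) := by
  have hne : ∀ a b, (hadd ε S a b).Nonempty := by
    intro a b
    rcases zero_or_unit a with rfl | ⟨a, rfl⟩
    · rw [hadd_zero_left]; exact Set.singleton_nonempty _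
    rcases zero_or_unit b with rfl | ⟨b, rfl⟩
    · rw [hadd_zero_right]; exact Set.singleton_nonempty _
    obtain ⟨x, h1, _⟩ := hS a b 1 1
    exact ⟨x, mem_hadd_units.mpr h1⟩
  refine ⟨⟨1, one_ne_zero, fun a => one_mul a⟩, fun a b => mul_comm a b,
    fun a b c => mul_assoc a b c, fun a => zero_mul a, fun a b => mul_ne_zero, ?_, hne,
    hadd_comm hε, ?_, fun a => hadd_zero_left a, ?_, ?_, ?_⟩
  · intro a ha
    exact ⟨a⁻¹, fun c => by simp only [mul_inv_cancel₀ ha, one_mul]⟩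
  · intro a b c
    rcases zero_or_unit a with rfl | ⟨a, rfl⟩
    · rw [hadd_zero_left]
      simp [hadd_zero_left]
    rcases zero_or_unit b with rfl | ⟨b, rfl⟩
    · rw [hadd_zero_left, hadd_zero_right]
      simp
    rcases zero_or_unit c with rfl | ⟨c, rfl⟩
    · rw [hadd_zero_right]
      simp [hadd_zero_right]
    rw [assoc_aux hε hS]
    have : ∀ x, hadd ε S (a : H) x = hadd ε S x (a : H) := fun x => hadd_comm hε _ _
    simp only [this]
    rw [assoc_aux hε hS, mk_rot]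
  · intro a
    rcases zero_or_unit a with rfl | ⟨a, rfl⟩
    · refine ⟨0, by simp only [hadd_zero_left]; rfl, ?_⟩
      intro b hb
      simp only [hadd_zero_left] at hb
      exact hb.symm
    · refine ⟨((ε * a : Hˣ) : H), zero_mem_hadd_units.mpr rfl, ?_⟩
      intro b hb
      rcases zero_or_unit b with rfl | ⟨b, rfl⟩
      · simp only [hadd_zero_right] at hb
        exact absurd hb.symm (Units.ne_zero _)
      · simp only [zero_mem_hadd_units] at hb
        rw [hb]
  · intro a b c d h1 h2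
    rcases zero_or_unit b with rfl | ⟨b, rfl⟩
    · rw [hadd_zero_left] at h1 h2
      rw [← h2, ← h1, hadd_zero_right]; rfl
    have hd : d = ((ε * b : Hˣ) : H) := by
      rcases zero_or_unit d with rfl | ⟨d, rfl⟩
      · rw [hadd_zero_right] at h2
        exact absurd h2.symm (Units.ne_zero _)
      · rw [zero_mem_hadd_units] at h2
        rw [h2]
    subst hd
    rcases zero_or_unit c with rfl | ⟨c, rfl⟩
    · rw [hadd_zero_right] at h1
      rw [h1, zero_mem_hadd_units]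
    rcases zero_or_unit a with rfl | ⟨a, rfl⟩
    · rw [zero_mem_hadd_units] at h1
      rw [hadd_zero_left, h1]; rfl
    rw [mem_hadd_units] at h1 ⊢
    rw [← mk_scale ε] at h1
    rw [← mul_assoc, hε, one_mul, mk_rot, mk_rot] at h1
    exact h1
  · intro a b c
    rcases zero_or_unit a with rfl | ⟨a, rfl⟩
    · simp only [zero_mul]
      rw [hadd_zero_left]
      obtain ⟨x, hx⟩ := hne b c
      ext y
      constructor
      · rintro ⟨_, _, rfl⟩; rfl
      · rintro rfl; exact ⟨x, hx, rfl⟩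
    rcases zero_or_unit b with rfl | ⟨b, rfl⟩
    · simp [hadd_zero_left]
    rcases zero_or_unit c with rfl | ⟨c, rfl⟩
    · simp [hadd_zero_right]
    ext y
    constructor
    · rintro ⟨x, hx, rfl⟩
      simp only
      rw [← Units.val_mul, ← Units.val_mul]
      rcases zero_or_unit x with rfl | ⟨x, rfl⟩
      · rw [zero_mem_hadd_units] at hx
        rw [mul_zero, zero_mem_hadd_units, hx]
        rw [← mul_assoc, ← mul_assoc, mul_comm a ε]
      · rw [mem_hadd_units] at hx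
        rw [← Units.val_mul, mem_hadd_units, ← mul_assoc, mul_comm ε a, mul_assoc a, mk_scale]
        exact hx
    · intro hy
      simp only at hy
      rw [← Units.val_mul, ← Units.val_mul] at hy
      refine ⟨((a⁻¹ : Hˣ) : H) * y, ?_, ?_⟩
      · rcases zero_or_unit y with rfl | ⟨y, rfl⟩
        · rw [zero_mem_hadd_units] at hy
          rw [mul_zero, zero_mem_hadd_units]
          rw [← mul_assoc, mul_comm ε a, mul_assoc] at hy
          exact mul_left_cancel hy
        · rw [mem_hadd_units] at hy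
          rw [← Units.val_mul, mem_hadd_units, ← mk_scale a]
          have : a * (ε * (a⁻¹ * y)) = ε * y := by
            rw [← mul_assoc a, mul_comm a ε, mul_assoc, mul_inv_cancel_left]
          rw [this]; exact hy
      · simp

end

end Pool.Agent.X258.HF
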