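import Mathlib
import Pool.Agent.X258.HF.Struct

set_option autoImplicit false
set_option linter.unusedSectionVars false

/-! Counting the hyperfields with a given multiplication and a given `-1`. -/

namespace Pool.Agent.X258.HF

open Finset

section

variable {H : Type} [CommGroupWithZero H] [Fintype H]

/-- The two orbits attached to `x`. -/
noncomputable def AA (ε a b c d x : Hˣ) : Finset (Om H) := {mk a b (ε * x), mk x c (ε * d)}

open Classical in
theorem fibre1 (ε a b : Hˣ) (ω : Om H) :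
    (univ.filter (fun x : Hˣ => mk a b (ε * x) = ω)).card ≤ 6 := by
  refine le_trans ?_ (fibre_le a b ω)
  apply card_le_card_of_injOn (fun x => ε * x)
  · intro x hx
    simp only [coe_filter, mem_univ, true_and, Set.mem_ofPred_eq] at hx ⊢
    exact hx
  · intro x _ y _ h
    exact mul_left_cancel h

open Classical in
theorem fibre2 (c d : Hˣ) (ω : Om H) :
    (univ.filter (fun x : Hˣ => mk x c d = ω)).card ≤ 6 := by
  refine le_trans (le_of_eq ?_) (fibre_le c d ω)
  congr 1
  ext x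
  rw [mem_filter, mem_filter, mk_rot]

open Classical in
theorem conflict (ε a b c d x : Hˣ) :
    ((univ : Finset Hˣ).filter (fun y => ¬ Disjoint (AA ε a b c d x) (AA ε a b c d y))).card
      ≤ 24 := by
  have h1 : (univ : Finset Hˣ).filter (fun y => ¬ Disjoint (AA ε a b c d x) (AA ε a b c d y)) ⊆
      ((univ.filter (fun y : Hˣ => mk a b (ε * y) = mk a b (ε * x))) ∪
       (univ.filter (fun y : Hˣ => mk a b (ε * y) = mk x c (ε * d)))) ∪
      ((univ.filter (fun y : Hˣ => mk y c (ε * d) = mk a b (ε * x))) ∪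
       (univ.filter (fun y : Hˣ => mk y c (ε * d) = mk x c (ε * d)))) := by
    intro y hy
    rw [mem_filter, not_disjoint_iff] at hy
    obtain ⟨_, ω, hω1, hω2⟩ := hy
    unfold AA at hω1 hω2
    rw [mem_insert, mem_singleton] at hω1 hω2
    simp only [mem_union, mem_filter, mem_univ, true_and]
    rcases hω1 with h | h <;> rcases hω2 with h' | h'
    · exact Or.inl (Or.inl (h'.symm.trans h))
    · exact Or.inr (Or.inl (h'.symm.trans h))
    · exact Or.inl (Or.inr (h'.symm.trans h))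
    · exact Or.inr (Or.inr (h'.symm.trans h))
  refine (card_le_card h1).trans ((card_union_le _ _).trans ?_)
  have e1 := card_union_le (univ.filter (fun y : Hˣ => mk a b (ε * y) = mk a b (ε * x)))
    (univ.filter (fun y : Hˣ => mk a b (ε * y) = mk x c (ε * d)))
  have e2 := card_union_le (univ.filter (fun y : Hˣ => mk y c (ε * d) = mk a b (ε * x)))
    (univ.filter (fun y : Hˣ => mk y c (ε * d) = mk x c (ε * d)))
  have f1 := fibre1 ε a b (mk a b (ε * x))
  have f2 := fibre1 ε a b (mk x c (ε * d))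
  have f3 := fibre2 c (ε * d) (mk a b (ε * x))
  have f4 := fibre2 c (ε * d) (mk x c (ε * d))
  omega

open Classical in
theorem bad_quad (ε a b c d : Hˣ) :
    4 ^ (Nat.card Hˣ / 24) * ((univ : Finset (Finset (Om H))).filter
      (fun S => ∀ x : Hˣ, ¬ AA ε a b c d x ⊆ S)).card ≤
      3 ^ (Nat.card Hˣ / 24) * 2 ^ (Nat.card (Om H)) := by
  obtain ⟨I, _, hdis, hcard⟩ := exists_disjoint_family (AA ε a b c d) (univ : Finset Hˣ) 24
    (fun i => ⟨_, mem_insert_self _ _⟩) (fun i _ => conflict ε a b c d i)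
  have hk : Nat.card Hˣ / 24 ≤ I.card := by
    rw [card_univ, ← Nat.card_eq_fintype_card] at hcard
    omega
  obtain ⟨J, hJI, hJ⟩ := exists_subset_card_eq hk
  have h1 := count_avoid (AA ε a b c d) (fun i => card_le_two) J
    (fun i hi j hj hij => hdis i (hJI hi) j (hJI hj) hij)
  rw [hJ, ← Nat.card_eq_fintype_card] at h1
  refine le_trans (Nat.mul_le_mul_left _ (card_le_card ?_)) h1
  intro S hS
  simp only [mem_filter, mem_univ, true_and] at hS ⊢
  exact fun i _ => hS i

open Classical in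
theorem not_rich_card (ε : Hˣ) :
    4 ^ (Nat.card Hˣ / 24) * ((univ : Finset (Finset (Om H))).filter
      (fun S => ¬ Rich ε S)).card ≤
      (Nat.card Hˣ) ^ 4 * (3 ^ (Nat.card Hˣ / 24) * 2 ^ (Nat.card (Om H))) := by
  have h1 : ((univ : Finset (Finset (Om H))).filter (fun S => ¬ Rich ε S)) ⊆
      (univ : Finset (Hˣ × Hˣ × Hˣ × Hˣ)).biUnion (fun q =>
        (univ : Finset (Finset (Om H))).filter
          (fun S => ∀ x : Hˣ, ¬ AA ε q.1 q.2.1 q.2.2.1 q.2.2.2 x ⊆ S)) := by
    intro S hS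
    rw [mem_filter] at hS
    have h2 := hS.2
    unfold Rich at h2
    push Not at h2
    obtain ⟨a, b, c, d, h⟩ := h2
    rw [mem_biUnion]
    refine ⟨(a, b, c, d), mem_univ _, ?_⟩
    rw [mem_filter]
    refine ⟨mem_univ _, fun x hx => ?_⟩
    apply h x
    · exact hx (mem_insert_self _ _)
    · exact hx (mem_insert_of_mem (mem_singleton_self _))
  calc _ ≤ 4 ^ (Nat.card Hˣ / 24) * ∑ q : Hˣ × Hˣ × Hˣ × Hˣ,
        ((univ : Finset (Finset (Om H))).filter
          (fun S => ∀ x : Hˣ, ¬ AA ε q.1 q.2.1 q.2.2.1 q.2.2.2 x ⊆ S)).card :=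
        Nat.mul_le_mul_left _ ((card_le_card h1).trans card_biUnion_le)
    _ = ∑ q : Hˣ × Hˣ × Hˣ × Hˣ, 4 ^ (Nat.card Hˣ / 24) *
        ((univ : Finset (Finset (Om H))).filter
          (fun S => ∀ x : Hˣ, ¬ AA ε q.1 q.2.1 q.2.2.1 q.2.2.2 x ⊆ S)).card := by
        rw [mul_sum]
    _ ≤ ∑ _q : Hˣ × Hˣ × Hˣ × Hˣ, 3 ^ (Nat.card Hˣ / 24) * 2 ^ (Nat.card (Om H)) :=
        sum_le_sum (fun q _ => bad_quad ε _ _ _ _)
    _ = _ := by
        rw [sum_const, smul_eq_mul, card_univ, Fintype.card_prod, Fintype.card_prod,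
          Fintype.card_prod, ← Nat.card_eq_fintype_card]
        ring

open Classical in
theorem rich_card (ε : Hˣ)
    (hn : 2 * (Nat.card Hˣ) ^ 4 * 3 ^ (Nat.card Hˣ / 24) ≤ 4 ^ (Nat.card Hˣ / 24)) :
    2 ^ (Nat.card (Om H)) ≤ 2 * ((univ : Finset (Finset (Om H))).filter
      (fun S => Rich ε S)).card := by
  have h1 := not_rich_card (H := H) ε
  have h2 := card_filter_add_card_filter_not (s := (univ : Finset (Finset (Om H)))) (fun S => Rich ε S)
  rw [card_univ, Fintype.card_finset, ← Nat.card_eq_fintype_card] at h2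
  set X := ((univ : Finset (Finset (Om H))).filter (fun S => ¬ Rich ε S)).card with hX
  set n := Nat.card Hˣ with hnn
  have h3 : 2 * X ≤ 2 ^ (Nat.card (Om H)) := by
    have h4 : 4 ^ (n / 24) * (2 * X) ≤ 4 ^ (n / 24) * 2 ^ (Nat.card (Om H)) := by
      calc 4 ^ (n / 24) * (2 * X) = 2 * (4 ^ (n / 24) * X) := by ring
        _ ≤ 2 * (n ^ 4 * (3 ^ (n / 24) * 2 ^ (Nat.card (Om H)))) := Nat.mul_le_mul_left _ h1
        _ = (2 * n ^ 4 * 3 ^ (n / 24)) * 2 ^ (Nat.card (Om H)) := by ring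
        _ ≤ _ := Nat.mul_le_mul_right _ hn
    exact Nat.le_of_mul_le_mul_left h4 (by positivity)
  omega

/-- The orbits which have to be chosen if `1 - 1` is everything. -/
noncomputable def FF (ε : Hˣ) : Finset (Om H) := by
  classical exact univ.image (fun y : Hˣ => mk 1 ε y)

theorem card_FF (ε : Hˣ) : Nat.card Hˣ ≤ 6 * (FF ε : Finset (Om H)).card := by
  classical
  rw [Nat.card_eq_fintype_card, ← card_univ]
  unfold FF
  apply card_le_mul_card_image
  intro ω _
  have := fibre_le 1 ε ω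
  convert this

/-- The set of orbits of a hyperaddition. -/
noncomputable def enc (ε : Hˣ) (s : H → H → Set H) : Finset (Om H) := by
  classical exact univ.filter (fun ω => ∃ x y z : Hˣ, ω = mk x y z ∧ ((ε * z : Hˣ) : H) ∈ s x y)

theorem mem_enc {ε : Hˣ} {s : H → H → Set H} {ω : Om H} :
    ω ∈ enc ε s ↔ ∃ x y z : Hˣ, ω = mk x y z ∧ ((ε * z : Hˣ) : H) ∈ s x y := by
  unfold enc
  simp

theorem enc_spec {ε : Hˣ} {s : H → H → Set H} (hs : HypAx (0 : H) (fun a b => a * b) s)
    (hε : (0 : H) ∈ s 1 (ε : H)) : s = hadd ε (enc ε s) ∧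
    ∀ x y z : Hˣ, mk x y z ∈ enc ε s ↔ ((ε * z : Hˣ) : H) ∈ s x y := by
  obtain ⟨-, -, -, -, -, -, -, hcomm, -, hz, hu, hrev, hdis⟩ := hs
  -- `-a = ε a`
  have hneg : ∀ a : H, (0 : H) ∈ s a (ε * a) := by
    intro a
    have h1 : (0 : H) ∈ (fun x => a * x) '' s 1 (ε : H) := ⟨0, hε, mul_zero a⟩
    rw [hdis] at h1
    simp only [mul_one] at h1
    rwa [mul_comm] at h1
  have hεε : ε * ε = 1 := by
    have h1 : (0 : H) ∈ s (ε : H) ((ε : H) * ε) := hneg ε
    have h2 : (0 : H) ∈ s (ε : H) 1 := by rw [hcomm]; exact hε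
    have h3 := (hu (ε : H)).unique h1 h2
    exact Units.ext (by simpa using h3)
  -- the predicate
  let T : Hˣ → Hˣ → Hˣ → Prop := fun x y z => ((ε * z : Hˣ) : H) ∈ s x y
  have T1 : ∀ x y z, T x y z → T y x z := by
    intro x y z h
    show _ ∈ s (y : H) (x : H)
    rw [hcomm]; exact h
  have T3 : ∀ g x y z, T x y z → T (g * x) (g * y) (g * z) := by
    intro g x y z h
    have h1 : (g : H) * ((ε * z : Hˣ) : H) ∈ (fun w => (g : H) * w) '' s (x : H) (y : H) :=
      ⟨_, h, rfl⟩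
    rw [hdis] at h1
    show ((ε * (g * z) : Hˣ) : H) ∈ s ((g * x : Hˣ) : H) ((g * y : Hˣ) : H)
    simp only [Units.val_mul] at h1 ⊢
    rw [mul_left_comm]
    exact h1
  have T2 : ∀ x y z, T x y z → T z x y := by
    intro x y z h
    -- `ε z ∈ x + y`, so `y ∈ ε z - x`
    have h1 := hrev _ _ _ _ h (hneg x)
    have h2 : (ε : H) * y ∈ (fun w => (ε : H) * w) '' s ((ε * z : Hˣ) : H) ((ε : H) * x) :=
      ⟨_, h1, rfl⟩
    rw [hdis] at h2
    show ((ε * y : Hˣ) : H) ∈ s (z : H) (x : H)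
    have e1 : (ε : H) * ((ε * z : Hˣ) : H) = z := by
      rw [← Units.val_mul, ← mul_assoc, hεε, one_mul]
    have e2 : (ε : H) * ((ε : H) * x) = x := by
      rw [← mul_assoc, ← Units.val_mul, hεε, Units.val_one, one_mul]
    simp only [e1, e2] at h2
    rw [Units.val_mul]; exact h2
  have hmem : ∀ x y z : Hˣ, mk x y z ∈ enc ε s ↔ ((ε * z : Hˣ) : H) ∈ s x y := by
    intro x y z
    rw [mem_enc]
    constructor
    · rintro ⟨x', y', z', h, h'⟩
      exact pred_of_mk_eq T T1 T2 T3 h.symm h'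
    · intro h
      exact ⟨x, y, z, rfl, h⟩
  refine ⟨?_, hmem⟩
  funext a b
  rcases zero_or_unit a with rfl | ⟨a, rfl⟩
  · rw [hadd_zero_left, hz]
  rcases zero_or_unit b with rfl | ⟨b, rfl⟩
  · rw [hadd_zero_right, hcomm, hz]
  ext z
  rcases zero_or_unit z with rfl | ⟨z, rfl⟩
  · rw [zero_mem_hadd_units]
    constructor
    · intro h
      have := (hu (a : H)).unique h (hneg a)
      exact Units.ext (by rw [this]; simp)
    · rintro rfl
      have := hneg a
      rwa [← Units.val_mul] at this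
  · rw [mem_hadd_units, hmem, ← mul_assoc, hεε, one_mul]

/-- **Few hyperfields have `1 - 1 = H`.** -/
theorem fibre_main (ε : Hˣ) (hε : ε * ε = 1)
    (hn : 2 * (Nat.card Hˣ) ^ 4 * 3 ^ (Nat.card Hˣ / 24) ≤ 4 ^ (Nat.card Hˣ / 24)) :
    ({s : H → H → Set H | HypAx (0 : H) (fun a b => a * b) s ∧ (0 : H) ∈ s 1 (ε : H) ∧
        s 1 (ε : H) = Set.univ}).ncard * 2 ^ (Nat.card Hˣ / 6) ≤
      2 * ({s : H → H → Set H | HypAx (0 : H) (fun a b => a * b) s ∧
        (0 : H) ∈ s 1 (ε : H)}).ncard ∧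
    2 ^ (Nat.card (Om H)) ≤ 2 * ({s : H → H → Set H | HypAx (0 : H) (fun a b => a * b) s ∧
        (0 : H) ∈ s 1 (ε : H)}).ncard := by
  classical
  have hB : 2 ^ (Nat.card (Om H)) ≤ 2 * ({s : H → H → Set H | HypAx (0 : H) (fun a b => a * b) s ∧
        (0 : H) ∈ s 1 (ε : H)}).ncard := by
    refine (rich_card ε hn).trans (Nat.mul_le_mul_left _ ?_)
    rw [← Set.ncard_coe_finset]
    apply Set.ncard_le_ncard_of_injOn (fun S => hadd ε S)
    · intro S hS
      rw [mem_coe, mem_filter] at hS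
      refine ⟨hyp_of_rich hε hS.2, ?_⟩
      have := zero_mem_hadd_units (ε := ε) (S := S) (a := 1) (b := ε)
      rw [Units.val_one] at this
      rw [this]; simp
    · intro S _ S' _ h
      ext ω
      obtain ⟨a, b, c, rfl⟩ := exists_mk ω
      have h1 := mem_hadd_units (ε := ε) (S := S) (a := a) (b := b) (z := ε * c)
      have h2 := mem_hadd_units (ε := ε) (S := S') (a := a) (b := b) (z := ε * c)
      rw [← mul_assoc, hε, one_mul] at h1 h2
      rw [← h1, ← h2]
      have h3 : hadd ε S = hadd ε S' := h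
      rw [h3]
  refine ⟨?_, hB⟩
  have hA : ({s : H → H → Set H | HypAx (0 : H) (fun a b => a * b) s ∧ (0 : H) ∈ s 1 (ε : H) ∧
        s 1 (ε : H) = Set.univ}).ncard * 2 ^ (Nat.card Hˣ / 6) ≤ 2 ^ (Nat.card (Om H)) := by
    have h1 : ({s : H → H → Set H | HypAx (0 : H) (fun a b => a * b) s ∧ (0 : H) ∈ s 1 (ε : H) ∧
        s 1 (ε : H) = Set.univ}).ncard ≤
        (univ.filter (fun S : Finset (Om H) => FF ε ⊆ S)).card := by
      rw [← Set.ncard_coe_finset]
      apply Set.ncard_le_ncard_of_injOn (fun s => enc ε s)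
      · rintro s ⟨hs, h0, hfull⟩
        rw [mem_coe, mem_filter]
        refine ⟨mem_univ _, ?_⟩
        intro ω hω
        unfold FF at hω
        rw [mem_image] at hω
        obtain ⟨y, _, rfl⟩ := hω
        rw [(enc_spec hs h0).2, Units.val_one, hfull]
        trivial
      · rintro s ⟨hs, h0, _⟩ t ⟨ht, h0', _⟩ h
        rw [(enc_spec hs h0).1, (enc_spec ht h0').1]
        have h3 : enc ε s = enc ε t := h
        rw [h3]
    have h2 := count_superset (FF ε : Finset (Om H))
    have h3 : 2 ^ (Nat.card Hˣ / 6) ≤ 2 ^ (FF ε : Finset (Om H)).card := by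
      apply Nat.pow_le_pow_right (by norm_num)
      have := card_FF (H := H) ε
      omega
    rw [← Nat.card_eq_fintype_card] at h2
    exact (Nat.mul_le_mul h1 h3).trans h2
  exact hA.trans hB

end

end Pool.Agent.X258.HF
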