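import Mathlib
import Pool.Agent.X258.HF.Fibre

set_option autoImplicit false
set_option linter.unusedSectionVars false

/-! Counting the hyperfield structures on `Fin (r + 1)`. -/

namespace Pool.Agent.X258.HF

open Finset

/-- Structures with a multiplication and a hyperaddition. -/
abbrev Str (r : ℕ) : Type :=
  (Fin (r+1) → Fin (r+1) → Fin (r+1)) × (Fin (r+1) → Fin (r+1) → Set (Fin (r+1)))

/-- The axioms for the multiplication. -/
def MulAx {H : Type} (z : H) (m : H → H → H) : Prop :=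
  (∃ u : H, u ≠ z ∧ ∀ a, m u a = a) ∧
  (∀ a b, m a b = m b a) ∧
  (∀ a b c, m (m a b) c = m a (m b c)) ∧
  (∀ a, m z a = z) ∧
  (∀ a b, a ≠ z → b ≠ z → m a b ≠ z) ∧
  (∀ a, a ≠ z → ∃ b, ∀ c, m (m a b) c = c)

theorem HypAx.mulAx {H : Type} {z : H} {m : H → H → H} {s : H → H → Set H} (h : HypAx z m s) :
    MulAx z m := by
  obtain ⟨h1, h2, h3, h4, h5, h6, -⟩ := h
  exact ⟨h1, h2, h3, h4, h5, h6⟩

/-- The commutative group with zero given by the multiplication. -/
@[reducible] noncomputable def cgz {H : Type} (z : H) (m : H → H → H) (h : MulAx z m) :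
    CommGroupWithZero H := by
  classical
  exact
  { zero := z
    one := h.1.choose
    mul := m
    inv := fun a => if ha : a = z then z else (h.2.2.2.2.2 a ha).choose
    mul_assoc := h.2.2.1
    mul_comm := h.2.1
    one_mul := h.1.choose_spec.2
    mul_one := fun a => (h.2.1 _ _).trans (h.1.choose_spec.2 a)
    zero_mul := h.2.2.2.1
    mul_zero := fun a => (h.2.1 _ _).trans (h.2.2.2.1 a)
    exists_pair_ne := ⟨h.1.choose, z, h.1.choose_spec.1⟩
    inv_zero := dif_pos rfl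
    mul_inv_cancel := fun a ha => by
      have ha' : a ≠ z := ha
      show m a (if ha : a = z then z else (h.2.2.2.2.2 a ha).choose) = h.1.choose
      rw [dif_neg ha']
      have h1 := (h.2.2.2.2.2 a ha').choose_spec
      have h2 := h1 h.1.choose
      rw [h.2.1, h.1.choose_spec.2] at h2
      exact h2 }

theorem one_unique {H : Type} {m : H → H → H} (hc : ∀ a b, m a b = m b a) {u v : H}
    (hu : ∀ a, m u a = a) (hv : ∀ a, m v a = a) : u = v := by
  rw [← hu v, hc, hv]

/-- `-1` squares to `1`. -/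
theorem eps_sq {H : Type} [CommGroupWithZero H] {s : H → H → Set H}
    (hs : HypAx (0 : H) (fun a b => a * b) s) {e : H} (he : (0 : H) ∈ s 1 e) :
    e ≠ 0 ∧ e * e = 1 := by
  obtain ⟨-, -, -, -, -, -, -, hcomm, -, hz, hu, hrev, hdis⟩ := hs
  have h0 : e ≠ 0 := by
    rintro rfl
    rw [hcomm, hz] at he
    exact zero_ne_one he
  refine ⟨h0, ?_⟩
  have h1 : (0 : H) ∈ (fun x => e * x) '' s 1 e := ⟨0, he, mul_zero e⟩
  rw [hdis] at h1
  simp only [mul_one] at h1
  have h2 : (0 : H) ∈ s e 1 := by rw [hcomm]; exact he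
  exact (hu e).unique h1 h2

/-- Counting with a fixed multiplication and a fixed `-1`. -/
theorem fibre_gen {H : Type} [Fintype H] (z : H) (m : H → H → H) (h : MulAx z m) (u e : H)
    (hu : ∀ a, m u a = a) (n : ℕ) (hcard : Fintype.card H = n + 1)
    (hn : 2 * n ^ 4 * 3 ^ (n / 24) ≤ 4 ^ (n / 24)) :
    ({s : H → H → Set H | HypAx z m s ∧ z ∈ s u e ∧ s u e = Set.univ}).ncard * 2 ^ (n / 6) ≤
      2 * ({s : H → H → Set H | HypAx z m s ∧ z ∈ s u e}).ncard := by
  let _ := cgz z m h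
  have hu1 : u = 1 := one_unique h.2.1 hu h.1.choose_spec.2
  subst hu1
  by_cases hne : ({s : H → H → Set H | HypAx z m s ∧ z ∈ s 1 e}).Nonempty
  · obtain ⟨s0, hs0, hz0⟩ := hne
    obtain ⟨he, hee⟩ := eps_sq (H := H) hs0 hz0
    have hcard' : Nat.card Hˣ = n := by
      rw [Nat.card_units, Nat.card_eq_fintype_card, hcard]; rfl
    have h1 := fibre_main (H := H) (Units.mk0 e he) (Units.ext hee) (by rw [hcard']; exact hn)
    rw [hcard'] at h1
    exact h1.1
  · rw [Set.not_nonempty_iff_eq_empty] at hne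
    have : {s : H → H → Set H | HypAx z m s ∧ z ∈ s 1 e ∧ s 1 e = Set.univ} = ∅ := by
      rw [Set.eq_empty_iff_forall_notMem] at hne ⊢
      rintro s ⟨h1, h2, _⟩
      exact hne s ⟨h1, h2⟩
    rw [this]
    simp

theorem lower_gen {H : Type} [Fintype H] (z : H) (m : H → H → H) (h : MulAx z m)
    (n : ℕ) (hcard : Fintype.card H = n + 1)
    (hn : 2 * n ^ 4 * 3 ^ (n / 24) ≤ 4 ^ (n / 24)) :
    2 ^ (n ^ 2 / 6) ≤ 2 * ({s : H → H → Set H | HypAx z m s}).ncard := by
  let _ := cgz z m h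
  have hcard' : Nat.card Hˣ = n := by
    rw [Nat.card_units, Nat.card_eq_fintype_card, hcard]; rfl
  have h1 := (fibre_main (H := H) 1 (one_mul 1) (by rw [hcard']; exact hn)).2
  have h2 := card_Om (H := H)
  rw [← Nat.card_eq_fintype_card, ← Nat.card_eq_fintype_card, hcard'] at h2
  calc 2 ^ (n ^ 2 / 6) ≤ 2 ^ (Nat.card (Om H)) := Nat.pow_le_pow_right (by norm_num) (by omega)
    _ ≤ _ := h1
    _ ≤ _ := by
      apply Nat.mul_le_mul_left
      apply Set.ncard_le_ncard _ (Set.toFinite _)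
      rintro s ⟨h3, _⟩
      exact h3

/-- The hyperfield structures on `Fin (r + 1)`. -/
def XX (r : ℕ) : Set (Str r) := {p | HypAx 0 p.1 p.2}

/-- The ones in which `1 - 1` is everything. -/
def XF (r : ℕ) : Set (Str r) := {p | HypAx 0 p.1 p.2 ∧
  ∀ u b, (∀ a, p.1 u a = a) → 0 ∈ p.2 u b → p.2 u b = Set.univ}

theorem full_le (r : ℕ) (hn : 2 * r ^ 4 * 3 ^ (r / 24) ≤ 4 ^ (r / 24)) :
    (XF r).ncard * 2 ^ (r / 6) ≤ 2 * (XX r).ncard := by
  classical
  -- `(multiplication, 1, -1)`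
  let φ : Str r → (Fin (r+1) → Fin (r+1) → Fin (r+1)) × (Fin (r+1)) × (Fin (r+1)) := fun p =>
    (p.1, if h : ∃ v : Fin (r+1) × Fin (r+1), (∀ a, p.1 v.1 a = a) ∧ 0 ∈ p.2 v.1 v.2 then h.choose
      else 0)
  have hφ : ∀ p ∈ XX r, ∀ m u e, φ p = (m, u, e) ↔ p.1 = m ∧ (∀ a, m u a = a) ∧ 0 ∈ p.2 u e := by
    intro p hp m u e
    obtain ⟨⟨u0, hu0, hu1⟩, hc, -, -, -, -, -, -, -, -, hex, -, -⟩ := id hp
    obtain ⟨e0, he0, heu⟩ := hex u0
    have h : ∃ v : Fin (r+1) × Fin (r+1), (∀ a, p.1 v.1 a = a) ∧ 0 ∈ p.2 v.1 v.2 :=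
      ⟨(u0, e0), hu1, he0⟩
    have hsp := h.choose_spec
    constructor
    · intro h1
      simp only [φ, h, dif_pos, Prod.mk.injEq] at h1
      obtain ⟨h2, h3⟩ := h1
      rw [h3] at hsp
      rw [← h2]
      exact ⟨rfl, hsp.1, hsp.2⟩
    · rintro ⟨rfl, h2, h3⟩
      simp only [φ, h, dif_pos, Prod.mk.injEq, true_and]
      have e1 : h.choose.1 = u := one_unique hc hsp.1 h2
      have e2 : h.choose.2 = e := by
        obtain ⟨w, _, hw⟩ := hex u
        rw [hw e h3]
        apply hw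
        have := hsp.2
        rw [e1] at this
        exact this
      exact Prod.ext e1 e2
  have hXF : (XF r) ⊆ XX r := fun p hp => hp.1
  let A : Finset (Str r) := (Set.toFinite (XF r)).toFinset
  let B : Finset (Str r) := (Set.toFinite (XX r)).toFinset
  have hA : (XF r).ncard = A.card := Set.ncard_eq_toFinset_card _ _
  have hB : (XX r).ncard = B.card := Set.ncard_eq_toFinset_card _ _
  rw [hA, hB]
  rw [card_eq_sum_card_fiberwise (f := φ) (s := A) (t := univ) (fun _ _ => mem_coe.mpr (mem_univ _)),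
    card_eq_sum_card_fiberwise (f := φ) (s := B) (t := univ) (fun _ _ => mem_coe.mpr (mem_univ _)),
    sum_mul, mul_sum]
  apply sum_le_sum
  rintro ⟨m, u, e⟩ _
  by_cases hm : MulAx (0 : Fin (r+1)) m ∧ ∀ a, m u a = a
  · have h1 := fibre_gen (0 : Fin (r+1)) m hm.1 u e hm.2 r (by simp) hn
    have hle1 : (A.filter (fun p => φ p = (m, u, e))).card ≤
        ({s : Fin (r+1) → Fin (r+1) → Set (Fin (r+1)) | HypAx 0 m s ∧ 0 ∈ s u e ∧
          s u e = Set.univ}).ncard := by
      rw [← Set.ncard_coe_finset]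
      apply Set.ncard_le_ncard_of_injOn (fun p : Str r => p.2)
      · intro p hp
        rw [mem_coe, mem_filter, Set.Finite.mem_toFinset] at hp
        obtain ⟨hp1, hp2⟩ := hp
        rw [hφ p hp1.1] at hp2
        obtain ⟨rfl, h2, h3⟩ := hp2
        exact ⟨hp1.1, h3, hp1.2 u e h2 h3⟩
      · intro p hp q hq hpq
        rw [mem_coe, mem_filter, Set.Finite.mem_toFinset] at hp hq
        have e1 := ((hφ p hp.1.1 m u e).mp hp.2).1
        have e2 := ((hφ q hq.1.1 m u e).mp hq.2).1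
        exact Prod.ext (e1.trans e2.symm) hpq
    have hle2 : ({s : Fin (r+1) → Fin (r+1) → Set (Fin (r+1)) | HypAx 0 m s ∧
        0 ∈ s u e}).ncard ≤ (B.filter (fun p => φ p = (m, u, e))).card := by
      rw [← Set.ncard_coe_finset]
      apply Set.ncard_le_ncard_of_injOn (fun s => ((m, s) : Str r))
      · rintro s ⟨hs1, hs2⟩
        rw [mem_coe, mem_filter, Set.Finite.mem_toFinset]
        have : ((m, s) : Str r) ∈ XX r := hs1
        exact ⟨this, (hφ _ this m u e).mpr ⟨rfl, hm.2, hs2⟩⟩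
      · intro s _ t _ hst
        exact (Prod.mk.inj hst).2
    calc _ ≤ _ := Nat.mul_le_mul_right _ hle1
      _ ≤ _ := h1
      _ ≤ _ := Nat.mul_le_mul_left _ hle2
  · have : A.filter (fun p => φ p = (m, u, e)) = ∅ := by
      rw [Finset.eq_empty_iff_forall_notMem]
      intro p hp
      rw [mem_filter, Set.Finite.mem_toFinset] at hp
      obtain ⟨hp1, hp2⟩ := hp
      rw [hφ p hp1.1] at hp2
      obtain ⟨rfl, h2, h3⟩ := hp2
      exact hm ⟨hp1.1.mulAx, h2⟩
    rw [this]
    simp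

/-- There is a commutative group with zero with `r + 1` elements. -/
theorem exists_mulAx (r : ℕ) (hr : 0 < r) :
    ∃ m : Fin (r+1) → Fin (r+1) → Fin (r+1), MulAx 0 m := by
  classical
  have : NeZero r := ⟨hr.ne'⟩
  have : Finite (WithZero (Multiplicative (ZMod r))) :=
    inferInstanceAs (Finite (Option (Multiplicative (ZMod r))))
  have hc : Nat.card (WithZero (Multiplicative (ZMod r))) = r + 1 := by
    have h1 : Nat.card (WithZero (Multiplicative (ZMod r))) =
        Nat.card (Option (Multiplicative (ZMod r))) := rfl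
    rw [h1, Finite.card_option]
    congr 1
    have h2 : Nat.card (Multiplicative (ZMod r)) = Nat.card (ZMod r) := rfl
    rw [h2, Nat.card_zmod]
  let e0 : WithZero (Multiplicative (ZMod r)) ≃ Fin (r+1) := Finite.equivFinOfCardEq hc
  let e : WithZero (Multiplicative (ZMod r)) ≃ Fin (r+1) := e0.trans (Equiv.swap (e0 0) 0)
  have he : e 0 = 0 := by simp [e]
  have he' : e.symm 0 = 0 := by rw [← he, Equiv.symm_apply_apply]
  refine ⟨fun a b => e (e.symm a * e.symm b), ⟨e 1, ?_, ?_⟩, ?_, ?_, ?_, ?_, ?_⟩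
  · intro h
    rw [← he] at h
    exact one_ne_zero (e.injective h)
  · intro a; simp
  · intro a b; simp only; rw [mul_comm]
  · intro a b c; simp [mul_assoc]
  · intro a; simp [he', he]
  · intro a b ha hb h
    rw [← he] at h
    have h1 := e.injective h
    rcases mul_eq_zero.mp h1 with h2 | h2
    · apply ha; rw [← he, ← h2, Equiv.apply_symm_apply]
    · apply hb; rw [← he, ← h2, Equiv.apply_symm_apply]
  · intro a ha
    have ha' : e.symm a ≠ 0 := by
      intro h; apply ha; rw [← he, ← h, Equiv.apply_symm_apply]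
    refine ⟨e (e.symm a)⁻¹, ?_⟩
    intro c
    simp [mul_inv_cancel₀ ha']

theorem lower (r : ℕ) (hr : 0 < r) (hn : 2 * r ^ 4 * 3 ^ (r / 24) ≤ 4 ^ (r / 24)) :
    2 ^ (r ^ 2 / 6) ≤ 2 * (XX r).ncard := by
  obtain ⟨m, hm⟩ := exists_mulAx r hr
  refine (lower_gen (0 : Fin (r+1)) m hm r (by simp) hn).trans (Nat.mul_le_mul_left _ ?_)
  apply Set.ncard_le_ncard_of_injOn (fun s => ((m, s) : Str r))
  · intro s hs; exact hs
  · intro s _ t _ hst
    exact (Prod.mk.inj hst).2

end Pool.Agent.X258.HF
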