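import Mathlib
import Pool.Agent.X258.HF.Labels

set_option autoImplicit false
set_option linter.unusedSectionVars false

/-! Isomorphisms of multiplications are determined by the images of few elements. -/

namespace Pool.Agent.X258.HF

open Finset

theorem exists_gens_aux (G : Type) [Group G] [Finite G] (n : ℕ) :
    ∃ T : Finset G, T.card ≤ n ∧ (Subgroup.closure (T : Set G) = ⊤ ∨
      2 ^ n ≤ Nat.card (Subgroup.closure (T : Set G))) := by
  classical
  induction n with
  | zero =>
    exact ⟨∅, by simp, Or.inr (by rw [pow_zero]; exact Nat.card_pos)⟩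
  | succ n ih =>
    obtain ⟨T, hT, h⟩ := ih
    by_cases htop : Subgroup.closure (T : Set G) = ⊤
    · exact ⟨T, by omega, Or.inl htop⟩
    · have h2 := h.resolve_left htop
      obtain ⟨g, hg⟩ : ∃ g, g ∉ Subgroup.closure (T : Set G) := by
        by_contra hcon
        push Not at hcon
        exact htop (eq_top_iff.mpr fun x _ => hcon x)
      refine ⟨insert g T, (card_insert_le _ _).trans (by omega), Or.inr ?_⟩
      have hle : Subgroup.closure (T : Set G) ≤ Subgroup.closure ((insert g T : Finset G) : Set G) :=
        Subgroup.closure_mono (by simp)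
      have hg' : g ∈ Subgroup.closure ((insert g T : Finset G) : Set G) :=
        Subgroup.subset_closure (by simp)
      obtain ⟨k, hk⟩ := Subgroup.card_dvd_of_le hle
      have hpos : 0 < Nat.card (Subgroup.closure ((insert g T : Finset G) : Set G)) :=
        Nat.card_pos
      have hk2 : 2 ≤ k := by
        by_contra hk2
        have hk1 : k = 1 := by
          rcases k with _ | _ | k
          · rw [hk, mul_zero] at hpos; omega
          · rfl
          · omega
        rw [hk1, mul_one] at hk
        have := Subgroup.eq_of_le_of_card_ge hle hk.le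
        rw [← this] at hg'
        exact hg hg'
      rw [hk, pow_succ]
      exact Nat.mul_le_mul h2 hk2

/-- A finite group of order `n` is generated by at most `log₂ n` elements. -/
theorem exists_gens (G : Type) [Group G] [Finite G] :
    ∃ T : Finset G, T.card ≤ Nat.log 2 (Nat.card G) ∧
      Submonoid.closure (T : Set G) = ⊤ := by
  obtain ⟨T, hT, h⟩ := exists_gens_aux G (Nat.log 2 (Nat.card G))
  refine ⟨T, hT, ?_⟩
  have htop : Subgroup.closure (T : Set G) = ⊤ := by
    rcases h with h | h
    · exact h
    · by_contra hne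
      obtain ⟨k, hk⟩ := Subgroup.card_subgroup_dvd_card (Subgroup.closure (T : Set G))
      have hpos : 0 < Nat.card G := Nat.card_pos
      have hk2 : 2 ≤ k := by
        by_contra hk2
        have hk1 : k = 1 := by
          rcases k with _ | _ | k
          · rw [hk, mul_zero] at hpos; omega
          · rfl
          · omega
        rw [hk1, mul_one] at hk
        exact hne (Subgroup.eq_top_of_card_eq _ hk.symm)
      have h1 := Nat.lt_pow_succ_log_self (b := 2) (by norm_num) (Nat.card G)
      rw [pow_succ] at h1
      have h2 := Nat.mul_le_mul h hk2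
      rw [← hk] at h2
      omega
  rw [← Subgroup.closure_toSubmonoid_of_finite, htop]
  rfl

theorem exists_det {H : Type} [Fintype H] (z : H) (m : H → H → H) (h : MulAx z m) (n : ℕ)
    (hcard : Fintype.card H = n + 1) :
    ∃ T : Finset H, T.card ≤ Nat.log 2 n ∧ ∀ (m' : H → H → H) (e e' : H ≃ H),
      (∀ a b, e (m a b) = m' (e a) (e b)) → (∀ a b, e' (m a b) = m' (e' a) (e' b)) →
      e z = e' z → (∀ t ∈ T, e t = e' t) → e = e' := by
  classical
  let _ := cgz z m h
  have hcard' : Nat.card Hˣ = n := by
    rw [Nat.card_units, Nat.card_eq_fintype_card, hcard]; rfl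
  obtain ⟨T, hT, hgen⟩ := exists_gens Hˣ
  rw [hcard'] at hT
  refine ⟨T.image (fun x : Hˣ => (x : H)), card_image_le.trans hT, ?_⟩
  intro m' e e' he he' hz hTe
  have h1 : e (1 : H) = e' (1 : H) := by
    have hc : ∀ a b, m' a b = m' b a := by
      intro a b
      have e1 := he (e.symm a) (e.symm b)
      have e2 := he (e.symm b) (e.symm a)
      rw [Equiv.apply_symm_apply, Equiv.apply_symm_apply] at e1 e2
      rw [← e1, ← e2, h.2.1]
    apply one_unique hc
    · intro a
      have := he 1 (e.symm a)
      rw [Equiv.apply_symm_apply] at this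
      rw [← this]
      have h2 : m 1 (e.symm a) = e.symm a := one_mul (e.symm a)
      rw [h2, Equiv.apply_symm_apply]
    · intro a
      have := he' 1 (e'.symm a)
      rw [Equiv.apply_symm_apply] at this
      rw [← this]
      have h2 : m 1 (e'.symm a) = e'.symm a := one_mul (e'.symm a)
      rw [h2, Equiv.apply_symm_apply]
  have h2 : ∀ x : Hˣ, e (x : H) = e' (x : H) := by
    intro x
    have hx : x ∈ Submonoid.closure (T : Set Hˣ) := by rw [hgen]; trivial
    induction hx using Submonoid.closure_induction with
    | mem x hx => exact hTe _ (mem_image_of_mem _ hx)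
    | one => exact h1
    | mul x y _ _ hx hy =>
      rw [Units.val_mul]
      have e1 : e ((x : H) * (y : H)) = m' (e x) (e y) := he _ _
      have e2 : e' ((x : H) * (y : H)) = m' (e' x) (e' y) := he' _ _
      rw [e1, e2, hx, hy]
  apply Equiv.ext
  intro a
  rcases zero_or_unit a with rfl | ⟨a, rfl⟩
  · exact hz
  · exact h2 a

/-- Few isomorphisms. -/
theorem iso_count {r : ℕ} (m m' : Fin (r+1) → Fin (r+1) → Fin (r+1)) (h : MulAx 0 m) :
    ({e : Equiv.Perm (Fin (r+1)) | (∀ a b, e (m a b) = m' (e a) (e b)) ∧ e 0 = 0}).ncard ≤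
      (r + 1) ^ (Nat.log 2 r) := by
  classical
  obtain ⟨T, hT, hdet⟩ := exists_det (0 : Fin (r+1)) m h r (by simp)
  have h1 : ({e : Equiv.Perm (Fin (r+1)) | (∀ a b, e (m a b) = m' (e a) (e b)) ∧
      e 0 = 0}).ncard ≤ (Set.univ : Set (T → Fin (r+1))).ncard := by
    apply Set.ncard_le_ncard_of_injOn (fun e => fun t : T => e t)
    · intro _ _; trivial
    · rintro e ⟨he, h0⟩ e' ⟨he', h0'⟩ hee
      apply hdet m' e e' he he' (h0.trans h0'.symm)
      intro t ht
      exact congrFun hee ⟨t, ht⟩
  rw [Set.ncard_univ, Nat.card_eq_fintype_card, Fintype.card_fun, Fintype.card_fin,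
    Fintype.card_coe] at h1
  exact h1.trans (Nat.pow_le_pow_right (by omega) hT)

end Pool.Agent.X258.HF
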