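import Mathlib
import Pool.Agent.X258.HF.Gens
import Pool.Agent.X258.HF.Finite

set_option autoImplicit false
set_option linter.unusedSectionVars false

/-! Quotient hyperfields. -/

namespace Pool.Agent.X258.HF

open Finset

/-- `p` is the quotient of `K` by `G`, labelled by `f`. -/
def QuotData {r : ℕ} (K : Type) [Field K] (G : Subgroup Kˣ) (f : K → Fin (r+1)) (p : Str r) :
    Prop :=
  Function.Surjective f ∧ f 0 = 0 ∧
  (∀ x y : K, f x = f y ↔ ∃ g ∈ G, y = x * (g : K)) ∧
  (∀ x y : K, f (x * y) = p.1 (f x) (f y)) ∧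
  (∀ x y : K, p.2 (f x) (f y) = {z | ∃ g ∈ G, ∃ h ∈ G, z = f (x * (g : K) + y * (h : K))})

/-- `p` is a quotient hyperfield. -/
def IsQuot {r : ℕ} (p : Str r) : Prop :=
  ∃ (K : Type) (_ : Field K), ∃ G : Subgroup Kˣ, ∃ f : K → Fin (r+1), QuotData K G f p

section

variable {r : ℕ} {K : Type} [Field K] {G : Subgroup Kˣ} {f : K → Fin (r+1)} {p : Str r}

theorem QuotData.eq_zero (h : QuotData K G f p) {x : K} (hx : f x = 0) : x = 0 := by
  obtain ⟨-, h0, hf, -, -⟩ := h
  rw [← h0, eq_comm, hf] at hx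
  obtain ⟨g, _, hx⟩ := hx
  rw [hx, zero_mul]

theorem QuotData.f_mul (h : QuotData K G f p) (x : K) {g : Kˣ} (hg : g ∈ G) :
    f (x * (g : K)) = f x := by
  obtain ⟨-, -, hf, -, -⟩ := h
  exact ((hf _ _).mpr ⟨g, hg, rfl⟩).symm

theorem QuotData.neg_spec (h : QuotData K G f p) (x y : K) :
    0 ∈ p.2 (f x) (f y) ↔ f y = f (-x) := by
  obtain ⟨hsurj, h0, hf, hm, hs⟩ := id h
  rw [hs]
  constructor
  · rintro ⟨g, hg, k, hk, he⟩
    have h1 := h.eq_zero he.symm
    rw [eq_comm, hf]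
    refine ⟨g * k⁻¹, G.mul_mem hg (G.inv_mem hk), ?_⟩
    rw [Units.val_mul, Units.val_inv_eq_inv_val]
    have hk0 := Units.ne_zero k
    field_simp
    linear_combination h1
  · intro h1
    rw [eq_comm, hf] at h1
    obtain ⟨g, hg, h1⟩ := h1
    refine ⟨g, hg, 1, G.one_mem, ?_⟩
    rw [h1, ← h0]
    congr 1
    simp

theorem QuotData.hypAx (h : QuotData K G f p) : HypAx 0 p.1 p.2 := by
  obtain ⟨hsurj, h0, hf, hm, hs⟩ := id h
  refine ⟨⟨f 1, ?_, ?_⟩, ?_, ?_, ?_, ?_, ?_, ?_, ?_, ?_, ?_, ?_, ?_, ?_⟩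
  · intro h1
    exact one_ne_zero (h.eq_zero h1)
  · intro a
    obtain ⟨x, rfl⟩ := hsurj a
    rw [← hm, one_mul]
  · intro a b
    obtain ⟨x, rfl⟩ := hsurj a
    obtain ⟨y, rfl⟩ := hsurj b
    rw [← hm, ← hm, mul_comm]
  · intro a b c
    obtain ⟨x, rfl⟩ := hsurj a
    obtain ⟨y, rfl⟩ := hsurj b
    obtain ⟨z, rfl⟩ := hsurj c
    rw [← hm, ← hm, ← hm, ← hm, mul_assoc]
  · intro a
    obtain ⟨x, rfl⟩ := hsurj a
    rw [← h0, ← hm, zero_mul]
  · intro a b ha hb h1
    obtain ⟨x, rfl⟩ := hsurj a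
    obtain ⟨y, rfl⟩ := hsurj b
    rw [← hm] at h1
    rcases mul_eq_zero.mp (h.eq_zero h1) with rfl | rfl
    · exact ha h0
    · exact hb h0
  · intro a ha
    obtain ⟨x, rfl⟩ := hsurj a
    have hx : x ≠ 0 := by rintro rfl; exact ha h0
    refine ⟨f x⁻¹, ?_⟩
    intro c
    obtain ⟨z, rfl⟩ := hsurj c
    rw [← hm, ← hm, mul_inv_cancel₀ hx, one_mul]
  · intro a b
    obtain ⟨x, rfl⟩ := hsurj a
    obtain ⟨y, rfl⟩ := hsurj b
    rw [hs]
    exact ⟨_, 1, G.one_mem, 1, G.one_mem, rfl⟩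
  · intro a b
    obtain ⟨x, rfl⟩ := hsurj a
    obtain ⟨y, rfl⟩ := hsurj b
    rw [hs, hs]
    ext z
    constructor
    · rintro ⟨g, hg, k, hk, rfl⟩
      exact ⟨k, hk, g, hg, congrArg f (add_comm _ _)⟩
    · rintro ⟨g, hg, k, hk, rfl⟩
      exact ⟨k, hk, g, hg, congrArg f (add_comm _ _)⟩
  · intro a b c
    obtain ⟨x, rfl⟩ := hsurj a
    obtain ⟨y, rfl⟩ := hsurj b
    obtain ⟨t, rfl⟩ := hsurj c
    have hL : (⋃ w ∈ p.2 (f x) (f y), p.2 w (f t)) =
        {z | ∃ a ∈ G, ∃ b ∈ G, ∃ c ∈ G, z = f (x * (a : K) + y * (b : K) + t * (c : K))} := by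
      ext z
      simp only [Set.mem_iUnion, exists_prop]
      constructor
      · rintro ⟨w, hw, hz⟩
        rw [hs] at hw
        obtain ⟨g, hg, k, hk, rfl⟩ := hw
        rw [hs] at hz
        obtain ⟨g', hg', k', hk', rfl⟩ := hz
        refine ⟨g * g', G.mul_mem hg hg', k * g', G.mul_mem hk hg', k', hk', ?_⟩
        congr 1
        push_cast
        ring
      · rintro ⟨a, ha, b, hb, c, hc, rfl⟩
        refine ⟨f (x * (a : K) + y * (b : K)), ?_, ?_⟩
        · rw [hs]; exact ⟨a, ha, b, hb, rfl⟩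
        · rw [hs]; exact ⟨1, G.one_mem, c, hc, by rw [Units.val_one, mul_one]⟩
    have hR : (⋃ w ∈ p.2 (f y) (f t), p.2 (f x) w) =
        {z | ∃ a ∈ G, ∃ b ∈ G, ∃ c ∈ G, z = f (x * (a : K) + y * (b : K) + t * (c : K))} := by
      ext z
      simp only [Set.mem_iUnion, exists_prop]
      constructor
      · rintro ⟨w, hw, hz⟩
        rw [hs] at hw
        obtain ⟨g, hg, k, hk, rfl⟩ := hw
        rw [hs] at hz
        obtain ⟨g', hg', k', hk', rfl⟩ := hz
        refine ⟨g', hg', g * k', G.mul_mem hg hk', k * k', G.mul_mem hk hk', ?_⟩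
        congr 1
        push_cast
        ring
      · rintro ⟨a, ha, b, hb, c, hc, rfl⟩
        refine ⟨f (y * (b : K) + t * (c : K)), ?_, ?_⟩
        · rw [hs]; exact ⟨b, hb, c, hc, rfl⟩
        · rw [hs]
          exact ⟨a, ha, 1, G.one_mem, by rw [Units.val_one, mul_one, add_assoc]⟩
    rw [hL, hR]
  · intro a
    obtain ⟨x, rfl⟩ := hsurj a
    rw [← h0, hs]
    ext z
    constructor
    · rintro ⟨g, hg, k, hk, rfl⟩
      rw [zero_mul, zero_add, h.f_mul x hk]
      rfl
    · rintro rfl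
      exact ⟨1, G.one_mem, 1, G.one_mem, by simp⟩
  · intro a
    obtain ⟨x, rfl⟩ := hsurj a
    refine ⟨f (-x), (h.neg_spec _ _).mpr rfl, ?_⟩
    intro b hb
    obtain ⟨y, rfl⟩ := hsurj b
    exact (h.neg_spec _ _).mp hb
  · intro a b c d h1 h2
    obtain ⟨x, rfl⟩ := hsurj a
    obtain ⟨y, rfl⟩ := hsurj b
    obtain ⟨t, rfl⟩ := hsurj c
    obtain ⟨s, rfl⟩ := hsurj d
    rw [h.neg_spec, eq_comm, hf] at h2
    rw [hs] at h1 ⊢
    obtain ⟨g, hg, k, hk, h1⟩ := h1
    rw [hf] at h1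
    obtain ⟨l, hl, h1⟩ := h1
    obtain ⟨n, hn, h2⟩ := h2
    -- `y g + t k = x l`, `s = - y n`
    refine ⟨l * k⁻¹, G.mul_mem hl (G.inv_mem hk), n⁻¹ * g * k⁻¹,
      G.mul_mem (G.mul_mem (G.inv_mem hn) hg) (G.inv_mem hk), ?_⟩
    congr 1
    have hk0 := Units.ne_zero k
    have hn0 := Units.ne_zero n
    rw [h2]
    push_cast
    field_simp
    linear_combination h1
  · intro a b c
    obtain ⟨x, rfl⟩ := hsurj a
    obtain ⟨y, rfl⟩ := hsurj b
    obtain ⟨t, rfl⟩ := hsurj c
    rw [← hm, ← hm, hs, hs]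
    ext z
    constructor
    · rintro ⟨w, ⟨g, hg, k, hk, rfl⟩, rfl⟩
      refine ⟨g, hg, k, hk, ?_⟩
      simp only
      rw [← hm]
      congr 1
      ring
    · rintro ⟨g, hg, k, hk, rfl⟩
      refine ⟨_, ⟨g, hg, k, hk, rfl⟩, ?_⟩
      simp only
      rw [← hm]
      congr 1
      ring

/-- The number of elements of the field. -/
theorem QuotData.card [Fintype K] (h : QuotData K G f p) :
    Fintype.card K = 1 + r * Nat.card G := by
  classical
  obtain ⟨hsurj, h0, hf, hm, hs⟩ := id h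
  have h1 : Fintype.card K = ∑ c : Fin (r+1), (univ.filter (fun x => f x = c)).card := by
    rw [← card_univ]
    exact card_eq_sum_card_fiberwise (fun _ _ => mem_coe.mpr (mem_univ _))
  rw [h1, Fin.sum_univ_succ]
  congr 1
  · have : univ.filter (fun x => f x = 0) = {0} := by
      ext x
      rw [mem_filter, mem_singleton]
      constructor
      · rintro ⟨_, hx⟩; exact h.eq_zero hx
      · rintro rfl; exact ⟨mem_univ _, h0⟩
    rw [this, card_singleton]
  · have : ∀ i : Fin r, (univ.filter (fun x => f x = i.succ)).card = Nat.card G := by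
      intro i
      obtain ⟨x, hx⟩ := hsurj i.succ
      have hx0 : x ≠ 0 := by
        rintro rfl
        rw [h0] at hx
        exact Fin.succ_ne_zero i hx.symm
      rw [Nat.card_eq_fintype_card, ← card_univ]
      symm
      apply card_bij (fun (g : G) _ => x * ((g : Kˣ) : K))
      · intro g _
        rw [mem_filter]
        exact ⟨mem_univ _, by rw [h.f_mul x g.2, hx]⟩
      · intro g _ g' _ hgg
        exact Subtype.ext (Units.ext (mul_left_cancel₀ hx0 hgg))
      · intro y hy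
        rw [mem_filter, ← hx, eq_comm, hf] at hy
        obtain ⟨_, g, hg, rfl⟩ := hy
        exact ⟨⟨g, hg⟩, mem_univ _, rfl⟩
    rw [sum_congr rfl (fun i _ => this i), sum_const, smul_eq_mul, card_univ, Fintype.card_fin]

/-- If the field is infinite or large then `1 - 1` is everything. -/
theorem QuotData.mem_XF (h : QuotData K G f p)
    (hK : ∀ _ : Fintype K, (r + 1) ^ 4 < Fintype.card K) : p ∈ XF r := by
  obtain ⟨hsurj, h0, hf, hm, hs⟩ := id h
  refine ⟨h.hypAx, ?_⟩
  intro u b hu hb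
  have hdiff : ∀ a : K, ∃ g ∈ G, ∃ k ∈ G, a = (g : K) - (k : K) := by
    intro a
    rcases finite_or_infinite K with hfin | hinf
    · have : Fintype K := Fintype.ofFinite K
      have h1 := hK this
      have h2 := h.card
      have hpos : 0 < Nat.card G := Nat.card_pos
      apply diff_finite G
      set n := Nat.card G with hn
      have h3 : (r + 1) ^ 3 < n := by
        by_contra hcon
        push Not at hcon
        have h4 : 1 + r * n ≤ (r + 1) ^ 4 := by
          calc 1 + r * n ≤ 1 + r * (r + 1) ^ 3 := by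
                have := Nat.mul_le_mul_left r hcon
                omega
            _ ≤ (r + 1) ^ 3 + r * (r + 1) ^ 3 := by
                have : 1 ≤ (r + 1) ^ 3 := Nat.one_le_pow _ _ (by omega)
                omega
            _ = (r + 1) ^ 4 := by ring
        omega
      rw [h2]
      calc (1 + r * n) ^ 3 ≤ ((r + 1) * n) ^ 3 := by
            apply Nat.pow_le_pow_left
            have : (r + 1) * n = r * n + n := by ring
            omega
        _ = (r + 1) ^ 3 * n ^ 3 := by ring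
        _ < n * n ^ 3 := Nat.mul_lt_mul_of_pos_right h3 (by positivity)
        _ = n ^ 4 := by ring
    · exact diff_infinite hf a
  have hu1 : u = f 1 := by
    apply one_unique h.hypAx.2.1 hu
    intro a
    obtain ⟨x, rfl⟩ := hsurj a
    rw [← hm, one_mul]
  obtain ⟨y, rfl⟩ := hsurj b
  rw [hu1] at hb ⊢
  rw [h.neg_spec] at hb
  rw [hb, hs]
  ext c
  simp only [Set.mem_univ, iff_true]
  obtain ⟨x, rfl⟩ := hsurj c
  obtain ⟨g, hg, k, hk, hx⟩ := hdiff x
  refine ⟨g, hg, k, hk, ?_⟩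
  rw [hx]
  congr 1
  ring

end

/-- Isomorphism. -/
def Iso {r : ℕ} (p q : Str r) : Prop :=
  ∃ e : Fin (r+1) ≃ Fin (r+1), ∀ a b, e (p.1 a b) = q.1 (e a) (e b) ∧ e '' p.2 a b = q.2 (e a) (e b)

/-- Quotients of two finite fields with the same number of elements are isomorphic. -/
theorem iso_of_card {r : ℕ} (hr : 0 < r) {K K' : Type} [Field K] [Field K'] [Fintype K]
    [Fintype K']
    {G : Subgroup Kˣ} {G' : Subgroup K'ˣ} {f : K → Fin (r+1)} {f' : K' → Fin (r+1)} {p q : Str r}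
    (h : QuotData K G f p) (h' : QuotData K' G' f' q)
    (hc : Fintype.card K = Fintype.card K') : Iso p q := by
  classical
  let φ : K ≃+* K' := FiniteField.ringEquivOfCardEq hc
  have hcG : Nat.card G = Nat.card G' := by
    have e1 := h.card
    have e2 := h'.card
    rw [e1, e2] at hc
    exact Nat.eq_of_mul_eq_mul_left hr (by omega)
  have hpos : 0 < Nat.card G' := Nat.card_pos
  -- `G'` consists of the solutions of `x ^ n = 1`
  have hG' : ∀ x : K'ˣ, x ∈ G' ↔ x ^ (Nat.card G') = 1 := by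
    have h1 : (G' : Set K'ˣ) = {x : K'ˣ | x ^ (Nat.card G') = 1} := by
      apply Set.eq_of_subset_of_ncard_le
      · intro x hx
        exact congrArg Subtype.val (pow_card_eq_one' (x := (⟨x, hx⟩ : G')))
      · have h2 := IsCyclic.card_pow_eq_one_le (α := K'ˣ) hpos
        rw [← Set.ncard_coe_finset] at h2
        simp only [coe_filter, mem_univ, true_and] at h2
        exact h2
      · exact Set.toFinite _
    intro x
    have := Set.ext_iff.mp h1 x
    exact this
  have hGφ : ∀ g : Kˣ, g ∈ G ↔ Units.map φ.toMonoidHom g ∈ G' := by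
    have hG : ∀ x : Kˣ, x ∈ G ↔ x ^ (Nat.card G') = 1 := by
      rw [← hcG] at hpos ⊢
      have h1 : (G : Set Kˣ) = {x : Kˣ | x ^ (Nat.card G) = 1} := by
        apply Set.eq_of_subset_of_ncard_le
        · intro x hx
          exact congrArg Subtype.val (pow_card_eq_one' (x := (⟨x, hx⟩ : G)))
        · have h2 := IsCyclic.card_pow_eq_one_le (α := Kˣ) hpos
          rw [← Set.ncard_coe_finset] at h2
          simp only [coe_filter, mem_univ, true_and] at h2
          exact h2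
        · exact Set.toFinite _
      intro x
      have := Set.ext_iff.mp h1 x
      exact this
    intro g
    rw [hG, hG', ← map_pow]
    constructor
    · intro h1; rw [h1, map_one]
    · intro h1
      have h2 : Function.Injective (Units.map φ.toMonoidHom) :=
        Units.map_injective φ.injective
      apply h2
      rw [h1, map_one]
  have hsurjφ : ∀ g' ∈ G', ∃ g ∈ G, (g' : K') = φ (g : K) := by
    intro g' hg'
    let g : Kˣ := Units.map φ.symm.toMonoidHom g'
    have e1 : φ (g : K) = g' := by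
      show φ (φ.symm (g' : K')) = g'
      exact φ.apply_symm_apply _
    refine ⟨g, ?_, e1.symm⟩
    rw [hGφ]
    have : Units.map φ.toMonoidHom g = g' := Units.ext e1
    rw [this]; exact hg'
  have hmapφ : ∀ g ∈ G, ∃ g' ∈ G', (g' : K') = φ (g : K) := fun g hg =>
    ⟨Units.map φ.toMonoidHom g, (hGφ g).mp hg, rfl⟩
  obtain ⟨hsurj, h0, hf, hm, hs⟩ := id h
  obtain ⟨hsurj', h0', hf', hm', hs'⟩ := id h'
  let e : Fin (r+1) → Fin (r+1) := fun c => f' (φ (Function.surjInv hsurj c))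
  have he : ∀ x, e (f x) = f' (φ x) := by
    intro x
    have h1 := Function.surjInv_eq hsurj (f x)
    rw [hf] at h1
    obtain ⟨g, hg, h1⟩ := h1
    show f' (φ (Function.surjInv hsurj (f x))) = f' (φ x)
    rw [hf']
    obtain ⟨g', hg', h2⟩ := hmapφ g hg
    refine ⟨g', hg', ?_⟩
    rw [h2, ← map_mul, ← h1]
  have hinj : Function.Injective e := by
    intro c d hcd
    obtain ⟨x, rfl⟩ := hsurj c
    obtain ⟨y, rfl⟩ := hsurj d
    rw [he, he, hf'] at hcd
    obtain ⟨g', hg', h1⟩ := hcd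
    obtain ⟨g, hg, h2⟩ := hsurjφ g' hg'
    rw [h2, ← map_mul] at h1
    rw [hf]
    exact ⟨g, hg, φ.injective h1⟩
  refine ⟨Equiv.ofBijective e (Finite.injective_iff_bijective.mp hinj), ?_⟩
  intro a b
  obtain ⟨x, rfl⟩ := hsurj a
  obtain ⟨y, rfl⟩ := hsurj b
  simp only [Equiv.ofBijective_apply]
  rw [← hm, he, he, he, map_mul, hm', hs, hs']
  refine ⟨rfl, ?_⟩
  ext z
  constructor
  · rintro ⟨w, ⟨g, hg, k, hk, rfl⟩, rfl⟩
    obtain ⟨g', hg', h2⟩ := hmapφ g hg
    obtain ⟨k', hk', h3⟩ := hmapφ k hk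
    refine ⟨g', hg', k', hk', ?_⟩
    show e _ = _
    rw [he, map_add, map_mul, map_mul, h2, h3]
  · rintro ⟨g', hg', k', hk', rfl⟩
    obtain ⟨g, hg, h2⟩ := hsurjφ g' hg'
    obtain ⟨k, hk, h3⟩ := hsurjφ k' hk'
    refine ⟨_, ⟨g, hg, k, hk, rfl⟩, ?_⟩
    show e _ = _
    rw [he, map_add, map_mul, map_mul, h2, h3]

end Pool.Agent.X258.HF
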