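import Mathlib
import Pool.Agent.X258.HF.Quot

set_option autoImplicit false
set_option linter.unusedSectionVars false

/-! Counting isomorphism classes. -/

namespace Pool.Agent.X258.HF

open Finset

/-- Hyperfield structures. -/
def IsHyp {r : ℕ} (p : Str r) : Prop := HypAx 0 p.1 p.2

/-- The isomorphism classes of the structures satisfying `A`. -/
def cls {r : ℕ} (A : Str r → Prop) : Set (Set (Str r)) :=
  {C | ∃ p, A p ∧ C = {q | A q ∧ Iso p q}}

theorem Iso.refl {r : ℕ} (p : Str r) : Iso p p := ⟨Equiv.refl _, fun a b => by simp⟩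

theorem Iso.symm {r : ℕ} {p q : Str r} (h : Iso p q) : Iso q p := by
  obtain ⟨e, he⟩ := h
  refine ⟨e.symm, fun a b => ?_⟩
  have h1 := he (e.symm a) (e.symm b)
  rw [Equiv.apply_symm_apply, Equiv.apply_symm_apply] at h1
  refine ⟨?_, ?_⟩
  · rw [← h1.1, Equiv.symm_apply_apply]
  · rw [← h1.2, Equiv.symm_image_image]

theorem Iso.trans {r : ℕ} {p q s : Str r} (h : Iso p q) (h' : Iso q s) : Iso p s := by
  obtain ⟨e, he⟩ := h
  obtain ⟨e', he'⟩ := h'
  refine ⟨e.trans e', fun a b => ?_⟩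
  have h1 := he a b
  have h2 := he' (e a) (e b)
  refine ⟨?_, ?_⟩
  · rw [Equiv.trans_apply, h1.1, h2.1]; rfl
  · rw [Equiv.coe_trans, Set.image_comp, h1.2, h2.2]; rfl

/-- Transport of structure. -/
def act {r : ℕ} (e : Fin (r+1) ≃ Fin (r+1)) (p : Str r) : Str r :=
  (fun a b => e (p.1 (e.symm a) (e.symm b)), fun a b => e '' p.2 (e.symm a) (e.symm b))

theorem iso_act {r : ℕ} (e : Fin (r+1) ≃ Fin (r+1)) (p : Str r) : Iso p (act e p) :=
  ⟨e, fun a b => by simp [act]⟩

theorem eq_act {r : ℕ} {p q : Str r} (e : Fin (r+1) ≃ Fin (r+1))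
    (h : ∀ a b, e (p.1 a b) = q.1 (e a) (e b) ∧ e '' p.2 a b = q.2 (e a) (e b)) :
    q = act e p := by
  apply Prod.ext
  · funext a b
    have := (h (e.symm a) (e.symm b)).1
    rw [Equiv.apply_symm_apply, Equiv.apply_symm_apply] at this
    exact this.symm
  · funext a b
    have := (h (e.symm a) (e.symm b)).2
    rw [Equiv.apply_symm_apply, Equiv.apply_symm_apply] at this
    exact this.symm

theorem isQuot_act {r : ℕ} {p : Str r} (hp : IsQuot p) (e : Fin (r+1) ≃ Fin (r+1))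
    (he : e 0 = 0) : IsQuot (act e p) := by
  obtain ⟨K, inst, G, f, hsurj, h0, hf, hm, hs⟩ := hp
  refine ⟨K, inst, G, fun x => e (f x), e.surjective.comp hsurj, ?_, ?_, ?_, ?_⟩
  · show e (f 0) = 0
    rw [h0, he]
  · intro x y
    rw [← hf]
    exact e.injective.eq_iff
  · intro x y
    show e (f (x * y)) = e (p.1 (e.symm (e (f x))) (e.symm (e (f y))))
    rw [Equiv.symm_apply_apply, Equiv.symm_apply_apply, hm]
  · intro x y
    show e '' p.2 (e.symm (e (f x))) (e.symm (e (f y))) = _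
    rw [Equiv.symm_apply_apply, Equiv.symm_apply_apply, hs]
    ext z
    constructor
    · rintro ⟨w, ⟨g, hg, k, hk, rfl⟩, rfl⟩
      exact ⟨g, hg, k, hk, rfl⟩
    · rintro ⟨g, hg, k, hk, rfl⟩
      exact ⟨_, ⟨g, hg, k, hk, rfl⟩, rfl⟩

theorem class_eq {r : ℕ} {A : Str r → Prop} {p q : Str r} (h : Iso p q) :
    {x | A x ∧ Iso p x} = {x | A x ∧ Iso q x} := by
  ext x
  exact ⟨fun hx => ⟨hx.1, h.symm.trans hx.2⟩, fun hx => ⟨hx.1, h.trans hx.2⟩⟩

theorem XX_le (r : ℕ) : (XX r).ncard ≤ (r + 1).factorial * (cls (IsHyp (r := r))).ncard := by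
  classical
  let B : Finset (Str r) := (Set.toFinite (XX r)).toFinset
  let t : Finset (Set (Str r)) := (Set.toFinite (cls (IsHyp (r := r)))).toFinset
  have hB : (XX r).ncard = B.card := Set.ncard_eq_toFinset_card _ _
  have ht : (cls (IsHyp (r := r))).ncard = t.card := Set.ncard_eq_toFinset_card _ _
  rw [hB, ht]
  apply card_le_mul_card_image_of_maps_to (f := fun p => {q | IsHyp q ∧ Iso p q})
  · intro p hp
    rw [Set.Finite.mem_toFinset] at hp ⊢
    exact ⟨p, hp, rfl⟩
  · intro C hC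
    rw [Set.Finite.mem_toFinset] at hC
    obtain ⟨p, hp, rfl⟩ := hC
    have h1 : B.filter (fun x => {q | IsHyp q ∧ Iso x q} = {q | IsHyp q ∧ Iso p q}) ⊆
        (univ : Finset (Equiv.Perm (Fin (r+1)))).image (fun e => act e p) := by
      intro x hx
      rw [mem_filter, Set.Finite.mem_toFinset] at hx
      have h2 : x ∈ {q | IsHyp q ∧ Iso x q} := ⟨hx.1, Iso.refl x⟩
      rw [hx.2] at h2
      obtain ⟨e, he⟩ := h2.2
      rw [mem_image]
      exact ⟨e, mem_univ _, (eq_act e he).symm⟩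
    calc _ ≤ _ := card_le_card h1
      _ ≤ _ := card_image_le
      _ = _ := by rw [card_univ, Fintype.card_perm, Fintype.card_fin]

theorem class_large {r : ℕ} {p : Str r} (hp : IsQuot p) :
    r.factorial ≤ (r + 1) ^ (Nat.log 2 r) * ({q | IsQuot q ∧ Iso p q}).ncard := by
  classical
  have hmul : MulAx 0 p.1 := by
    obtain ⟨K, inst, G, f, h⟩ := hp
    exact (QuotData.hypAx h).mulAx
  let t : Finset (Str r) := (Set.toFinite {q | IsQuot q ∧ Iso p q}).toFinset
  have ht : ({q | IsQuot q ∧ Iso p q}).ncard = t.card := Set.ncard_eq_toFinset_card _ _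
  have hcard : r.factorial = (univ : Finset (Equiv.Perm (Fin r))).card := by
    rw [card_univ, Fintype.card_perm, Fintype.card_fin]
  rw [ht, hcard]
  let E : Equiv.Perm (Fin r) → Equiv.Perm (Fin (r+1)) := fun σ =>
    Equiv.Perm.decomposeFin.symm (0, σ)
  have hE0 : ∀ σ, E σ 0 = 0 := fun σ => Equiv.Perm.decomposeFin_symm_apply_zero 0 σ
  have hEinj : Function.Injective E := by
    intro σ τ h
    have := Equiv.Perm.decomposeFin.symm.injective h
    exact (Prod.mk.inj this).2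
  apply card_le_mul_card_image_of_maps_to (f := fun σ => act (E σ) p)
  · intro σ _
    rw [Set.Finite.mem_toFinset]
    exact ⟨isQuot_act hp _ (hE0 σ), iso_act _ _⟩
  · intro q _
    refine le_trans ?_ (iso_count p.1 q.1 hmul)
    rw [← Set.ncard_coe_finset]
    apply Set.ncard_le_ncard_of_injOn E
    · intro σ hσ
      rw [mem_coe, mem_filter] at hσ
      refine ⟨?_, hE0 σ⟩
      intro a b
      rw [← hσ.2]
      simp [act]
    · intro σ _ τ _ h
      exact hEinj h

/-- The classes all of whose members have `1 - 1` everything. -/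
theorem big_le (r : ℕ) :
    ({C ∈ cls (IsQuot (r := r)) | C ⊆ XF r}).ncard * r.factorial ≤
      (r + 1) ^ (Nat.log 2 r) * (XF r).ncard := by
  classical
  let c : Str r → Set (Str r) := fun q => {x | IsQuot x ∧ Iso q x}
  let t : Finset (Set (Str r)) :=
    (Set.toFinite {C ∈ cls (IsQuot (r := r)) | C ⊆ XF r}).toFinset
  have ht : ({C ∈ cls (IsQuot (r := r)) | C ⊆ XF r}).ncard = t.card :=
    Set.ncard_eq_toFinset_card _ _
  let B : Finset (Str r) := (Set.toFinite (XF r)).toFinset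
  have hB : (XF r).ncard = B.card := Set.ncard_eq_toFinset_card _ _
  let B' := B.filter (fun q => c q ∈ t)
  have hB' : B'.card = ∑ C ∈ t, (B'.filter (fun q => c q = C)).card := by
    apply card_eq_sum_card_fiberwise
    intro q hq
    rw [mem_coe, mem_filter] at hq
    exact hq.2
  rw [ht, hB, mul_comm]
  calc r.factorial * t.card = ∑ _C ∈ t, r.factorial := by rw [sum_const, smul_eq_mul, mul_comm]
    _ ≤ ∑ C ∈ t, (r + 1) ^ (Nat.log 2 r) * (B'.filter (fun q => c q = C)).card := by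
      apply sum_le_sum
      intro C hC
      have hC' := hC
      rw [Set.Finite.mem_toFinset] at hC
      obtain ⟨⟨p, hp, rfl⟩, hsub⟩ := hC
      refine (class_large hp).trans (Nat.mul_le_mul_left _ ?_)
      rw [← Set.ncard_coe_finset]
      apply Set.ncard_le_ncard _ (Set.toFinite _)
      intro q hq
      have e1 : c q = {q | IsQuot q ∧ Iso p q} := (class_eq hq.2).symm
      rw [mem_coe, mem_filter, mem_filter, Set.Finite.mem_toFinset]
      exact ⟨⟨hsub hq, by rw [e1]; exact hC'⟩, e1⟩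
    _ = (r + 1) ^ (Nat.log 2 r) * B'.card := by rw [← mul_sum, ← hB']
    _ ≤ _ := Nat.mul_le_mul_left _ (card_le_card (filter_subset _ _))

/-- The other classes come from small finite fields. -/
theorem small_le (r : ℕ) (hr : 0 < r) :
    ({C ∈ cls (IsQuot (r := r)) | ¬ C ⊆ XF r}).ncard ≤ (r + 1) ^ 4 + 1 := by
  classical
  have key : ∀ C ∈ {C ∈ cls (IsQuot (r := r)) | ¬ C ⊆ XF r}, ∃ n : ℕ, n ≤ (r + 1) ^ 4 ∧
      ∃ q ∈ C, C = {x | IsQuot x ∧ Iso q x} ∧ ∃ (K : Type) (_ : Field K) (_ : Fintype K),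
        ∃ G : Subgroup Kˣ, ∃ f : K → Fin (r+1), QuotData K G f q ∧ Fintype.card K = n := by
    rintro C ⟨⟨p, hp, rfl⟩, hC⟩
    rw [Set.not_subset] at hC
    obtain ⟨q, hq, hqX⟩ := hC
    obtain ⟨K, inst, G, f, h⟩ := id hq.1
    have h1 : ∃ _ : Fintype K, Fintype.card K ≤ (r + 1) ^ 4 := by
      by_contra hcon
      push Not at hcon
      exact hqX (QuotData.mem_XF h hcon)
    obtain ⟨fK, h1⟩ := h1
    exact ⟨Fintype.card K, h1, q, hq, class_eq hq.2, K, inst, fK, G, f, h, rfl⟩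
  choose! n hn hn' using key
  have h1 : ({C ∈ cls (IsQuot (r := r)) | ¬ C ⊆ XF r}).ncard ≤
      ((range ((r + 1) ^ 4 + 1) : Finset ℕ) : Set ℕ).ncard := by
    apply Set.ncard_le_ncard_of_injOn n
    · intro C hC
      rw [mem_coe, mem_range]
      have := hn C hC
      omega
    · intro C hC D hD hCD
      obtain ⟨q, _, hCq, K, i1, i2, G, f, hq, hK⟩ := hn' C hC
      obtain ⟨q', _, hDq, K', i1', i2', G', f', hq', hK'⟩ := hn' D hD
      rw [hCq, hDq]
      apply class_eq
      exact iso_of_card hr hq hq' (by rw [hK, hK', hCD])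
  rw [Set.ncard_coe_finset, card_range] at h1
  exact h1

theorem total (r : ℕ) (hr : 0 < r) (hn : 2 * r ^ 4 * 3 ^ (r / 24) ≤ 4 ^ (r / 24)) :
    ∃ a b : ℕ, (cls (IsQuot (r := r))).ncard = a + b ∧
      a * 2 ^ (r / 6) ≤ (2 * (r + 1) ^ (Nat.log 2 r + 1)) * (cls (IsHyp (r := r))).ncard ∧
      b ≤ (r + 1) ^ 4 + 1 ∧
      2 ^ (r ^ 2 / 6) ≤ 2 * (r + 1).factorial * (cls (IsHyp (r := r))).ncard := by
  classical
  refine ⟨({C ∈ cls (IsQuot (r := r)) | C ⊆ XF r}).ncard,
    ({C ∈ cls (IsQuot (r := r)) | ¬ C ⊆ XF r}).ncard, ?_, ?_, small_le r hr, ?_⟩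
  · have h1 := Set.ncard_inter_add_ncard_sdiff_eq_ncard (cls (IsQuot (r := r)))
      {C | C ⊆ XF r} (Set.toFinite _)
    rw [← h1]
    rfl
  · have h1 := big_le r
    have h2 := full_le r hn
    have h3 := XX_le r
    set a := ({C ∈ cls (IsQuot (r := r)) | C ⊆ XF r}).ncard
    set M := (r + 1) ^ (Nat.log 2 r) with hM
    have hpos : 0 < r.factorial := Nat.factorial_pos r
    apply Nat.le_of_mul_le_mul_left _ hpos
    calc r.factorial * (a * 2 ^ (r / 6)) = (a * r.factorial) * 2 ^ (r / 6) := by ring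
      _ ≤ (M * (XF r).ncard) * 2 ^ (r / 6) := Nat.mul_le_mul_right _ h1
      _ = M * ((XF r).ncard * 2 ^ (r / 6)) := by ring
      _ ≤ M * (2 * (XX r).ncard) := Nat.mul_le_mul_left _ h2
      _ ≤ M * (2 * ((r + 1).factorial * (cls (IsHyp (r := r))).ncard)) :=
        Nat.mul_le_mul_left _ (Nat.mul_le_mul_left _ h3)
      _ = _ := by rw [Nat.factorial_succ, hM, pow_succ]; ring
  · have h2 := lower r hr hn
    have h3 := XX_le r
    calc _ ≤ _ := h2
      _ ≤ 2 * ((r + 1).factorial * (cls (IsHyp (r := r))).ncard) := Nat.mul_le_mul_left _ h3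
      _ = _ := by ring

end Pool.Agent.X258.HF
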