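import Mathlib
import Pool.Agent.X258.HF.Classes

set_option autoImplicit false

/-! Asymptotics. -/

namespace Pool.Agent.X258.HF

theorem log_bound (L : ℕ) (hL : 12 ≤ L) : 12 * ((L + 1) ^ 2 + 1) ≤ 2 ^ L ∧ 24 * (L + 1) ≤ 2 ^ L := by
  induction L, hL using Nat.le_induction with
  | base => norm_num
  | succ L hL ih =>
    rw [pow_succ 2 L]
    constructor
    · nlinarith [ih.1]
    · nlinarith [ih.2]

theorem E1 (r : ℕ) (hr : 2 ^ 12 ≤ r) :
    2 * (r + 1) ^ (Nat.log 2 r + 1) ≤ 2 ^ (r / 12) := by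
  set L := Nat.log 2 r with hL
  have h12 : 12 ≤ L := by
    rw [hL]
    exact (Nat.le_log_iff_pow_le (by norm_num) (by omega)).mpr hr
  have h1 : 2 ^ L ≤ r := Nat.pow_log_le_self 2 (by omega)
  have h2 : r + 1 ≤ 2 ^ (L + 1) := Nat.lt_pow_succ_log_self (by norm_num) r
  have h3 := (log_bound L h12).1
  calc 2 * (r + 1) ^ (L + 1) ≤ 2 * (2 ^ (L + 1)) ^ (L + 1) :=
        Nat.mul_le_mul_left _ (Nat.pow_le_pow_left h2 _)
    _ = 2 ^ ((L + 1) ^ 2 + 1) := by rw [← pow_mul, pow_succ 2 ((L+1)^2), sq, mul_comm]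
    _ ≤ 2 ^ (r / 12) := by
      apply Nat.pow_le_pow_right (by norm_num)
      rw [Nat.le_div_iff_mul_le (by norm_num)]
      omega

theorem E2 (r : ℕ) (hr : 2 ^ 12 ≤ r) :
    ((r + 1) ^ 4 + 1) * (2 * (r + 1).factorial) ≤ 2 ^ (r ^ 2 / 12) := by
  set L := Nat.log 2 r with hL
  have h12 : 12 ≤ L := by
    rw [hL]
    exact (Nat.le_log_iff_pow_le (by norm_num) (by omega)).mpr hr
  have h1 : 2 ^ L ≤ r := Nat.pow_log_le_self 2 (by omega)
  have h2 : r + 1 ≤ 2 ^ (L + 1) := Nat.lt_pow_succ_log_self (by norm_num) r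
  have h3 := (log_bound L h12).2
  have h4 : (r + 1).factorial ≤ (r + 1) ^ (r + 1) := Nat.factorial_le_pow _
  have h5 : ((r + 1) ^ 4 + 1) * 2 ≤ (r + 1) ^ 5 := by
    have : 1 ≤ (r + 1) ^ 4 := Nat.one_le_pow _ _ (by omega)
    rw [pow_succ (r + 1) 4]
    nlinarith
  calc ((r + 1) ^ 4 + 1) * (2 * (r + 1).factorial)
      = ((r + 1) ^ 4 + 1) * 2 * (r + 1).factorial := by ring
    _ ≤ (r + 1) ^ 5 * (r + 1) ^ (r + 1) := Nat.mul_le_mul h5 h4
    _ = (r + 1) ^ (r + 6) := by rw [← pow_add]; congr 1; omega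
    _ ≤ (2 ^ (L + 1)) ^ (r + 6) := Nat.pow_le_pow_left h2 _
    _ = 2 ^ ((L + 1) * (r + 6)) := by rw [← pow_mul]
    _ ≤ 2 ^ (r ^ 2 / 12) := by
      apply Nat.pow_le_pow_right (by norm_num)
      rw [Nat.le_div_iff_mul_le (by norm_num)]
      have h6 : r + 6 ≤ 2 * r := by omega
      have h7 : 24 * (L + 1) ≤ r := h3.trans h1
      calc (L + 1) * (r + 6) * 12 ≤ (L + 1) * (2 * r) * 12 := by gcongr
        _ = (24 * (L + 1)) * r := by ring
        _ ≤ r * r := Nat.mul_le_mul_right _ h7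
        _ = r ^ 2 := (sq r).symm

theorem E3' (k : ℕ) (hk : 150 ≤ k) : 2 * (24 * (k + 1)) ^ 4 * 3 ^ k ≤ 4 ^ k := by
  induction k, hk using Nat.le_induction with
  | base => norm_num
  | succ k hk ih =>
    have h1 : 3 * (k + 2) ^ 4 ≤ 4 * (k + 1) ^ 4 := by
      obtain ⟨m, rfl⟩ := Nat.exists_eq_add_of_le hk
      ring_nf
      nlinarith [sq_nonneg m, Nat.zero_le m, Nat.zero_le (m ^ 2), Nat.zero_le (m ^ 3)]
    calc 2 * (24 * (k + 1 + 1)) ^ 4 * 3 ^ (k + 1)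
        = 2 * 24 ^ 4 * 3 ^ k * (3 * (k + 2) ^ 4) := by ring
      _ ≤ 2 * 24 ^ 4 * 3 ^ k * (4 * (k + 1) ^ 4) := Nat.mul_le_mul_left _ h1
      _ = 4 * (2 * (24 * (k + 1)) ^ 4 * 3 ^ k) := by ring
      _ ≤ 4 * 4 ^ k := Nat.mul_le_mul_left _ ih
      _ = 4 ^ (k + 1) := by ring

theorem E3 (r : ℕ) (hr : 2 ^ 12 ≤ r) : 2 * r ^ 4 * 3 ^ (r / 24) ≤ 4 ^ (r / 24) := by
  refine le_trans ?_ (E3' (r / 24) (by omega))
  have : r ≤ 24 * (r / 24 + 1) := by omega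
  gcongr

theorem final_bound (r : ℕ) (hr : 2 ^ 12 ≤ r) :
    ((cls (IsQuot (r := r))).ncard : ℝ) / ((cls (IsHyp (r := r))).ncard : ℝ) ≤
      2 * (1 / 2 : ℝ) ^ (r / 12) := by
  obtain ⟨a, b, hQ, ha, hb, hH⟩ := total r (by omega) (E3 r hr)
  set Q := (cls (IsQuot (r := r))).ncard
  set H := (cls (IsHyp (r := r))).ncard
  have hHpos : 0 < H := by
    rcases Nat.eq_zero_or_pos H with h | h
    · rw [h, mul_zero] at hH
      have : 0 < 2 ^ (r ^ 2 / 6) := by positivity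
      omega
    · exact h
  have e1 := E1 r hr
  have e2 := E2 r hr
  have h1 : a * 2 ^ (r / 12) ≤ H := by
    have hp : 0 < 2 ^ (r / 12) := by positivity
    apply Nat.le_of_mul_le_mul_left _ hp
    calc 2 ^ (r / 12) * (a * 2 ^ (r / 12)) = a * 2 ^ (2 * (r / 12)) := by
          rw [two_mul, pow_add]; ring
      _ ≤ a * 2 ^ (r / 6) := Nat.mul_le_mul_left _ (Nat.pow_le_pow_right (by norm_num) (by omega))
      _ ≤ _ := ha
      _ ≤ _ := Nat.mul_le_mul_right _ e1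
  have h2 : b * 2 ^ (r / 12) ≤ H := by
    have hp : 0 < 2 ^ (r ^ 2 / 12) := by positivity
    have h3 : r / 12 ≤ r ^ 2 / 12 := Nat.div_le_div_right (by nlinarith)
    have h4 : 2 * (r ^ 2 / 12) ≤ r ^ 2 / 6 := by omega
    apply Nat.le_of_mul_le_mul_left _ hp
    calc 2 ^ (r ^ 2 / 12) * (b * 2 ^ (r / 12)) ≤ 2 ^ (r ^ 2 / 12) * (b * 2 ^ (r ^ 2 / 12)) :=
          Nat.mul_le_mul_left _ (Nat.mul_le_mul_left _ (Nat.pow_le_pow_right (by norm_num) h3))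
      _ = b * 2 ^ (2 * (r ^ 2 / 12)) := by rw [two_mul, pow_add]; ring
      _ ≤ b * 2 ^ (r ^ 2 / 6) := Nat.mul_le_mul_left _ (Nat.pow_le_pow_right (by norm_num) h4)
      _ ≤ ((r + 1) ^ 4 + 1) * (2 * (r + 1).factorial * H) := Nat.mul_le_mul hb hH
      _ = ((r + 1) ^ 4 + 1) * (2 * (r + 1).factorial) * H := by ring
      _ ≤ _ := Nat.mul_le_mul_right _ e2
  have h3 : Q * 2 ^ (r / 12) ≤ 2 * H := by rw [hQ, add_mul]; omega
  have h4 : (Q : ℝ) * 2 ^ (r / 12) ≤ 2 * H := by exact_mod_cast h3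
  have hH' : (0 : ℝ) < H := by exact_mod_cast hHpos
  rw [div_le_iff₀ hH', one_div, inv_pow]
  have h5 : (0 : ℝ) < 2 ^ (r / 12) := by positivity
  calc (Q : ℝ) = (Q : ℝ) * 2 ^ (r / 12) * (2 ^ (r / 12))⁻¹ := by field_simp
    _ ≤ (2 * H) * (2 ^ (r / 12))⁻¹ := by gcongr
    _ = _ := by ring

theorem main_tendsto :
    Filter.Tendsto (fun r : ℕ => ((cls (IsQuot (r := r))).ncard : ℝ) /
      ((cls (IsHyp (r := r))).ncard : ℝ)) Filter.atTop (nhds 0) := by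
  have h1 : Filter.Tendsto (fun r : ℕ => 2 * (1 / 2 : ℝ) ^ (r / 12)) Filter.atTop (nhds 0) := by
    have h2 : Filter.Tendsto (fun r : ℕ => r / 12) Filter.atTop Filter.atTop :=
      Nat.tendsto_div_const_atTop (by norm_num)
    have h3 : Filter.Tendsto (fun n : ℕ => (1 / 2 : ℝ) ^ n) Filter.atTop (nhds 0) :=
      tendsto_pow_atTop_nhds_zero_of_lt_one (by norm_num) (by norm_num)
    have h4 := (h3.comp h2).const_mul 2
    rw [mul_zero] at h4
    exact h4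
  refine squeeze_zero' ?_ ?_ h1
  · filter_upwards with r
    positivity
  · filter_upwards [Filter.eventually_ge_atTop (2 ^ 12)] with r hr
    exact final_bound r hr

end Pool.Agent.X258.HF
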